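import Pool.Agent.Run7.h434.EP.Iface

/-!
# Edge powers: basic facts
-/

set_option autoImplicit false

namespace Run7.h434.EP

open MeasureTheory Set Filter Topology
open scoped ENNReal InnerProductSpace Pointwise
open Run7.h523.KF (KK sv Master)
open Pool.Agent.W695.KH (Eu EU EV VV)

section

variable {n : ℕ} {κ : Type} [Fintype κ] {L : Set (Eu κ)}

theorem Body.nhds (hL : Body L) : L ∈ 𝓝 (0 : Eu κ) := mem_interior_iff_mem_nhds.1 hL.zero

theorem Body.gauge_cont (hL : Body L) : Continuous (gauge L) := continuous_gauge hL.conv hL.nhds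

theorem Body.vol_pos (hL : Body L) : 0 < volume L :=
  lt_of_lt_of_le (isOpen_interior.measure_pos volume ⟨0, hL.zero⟩) (measure_mono interior_subset)

theorem Body.vol_lt (hL : Body L) : volume L < ⊤ := hL.comp.measure_lt_top

theorem Body.gauge_eq_zero (hL : Body L) (u : Eu κ) : gauge L u = 0 ↔ u = 0 :=
  _root_.gauge_eq_zero (absorbent_nhds_zero hL.nhds)
    ((NormedSpace.isVonNBounded_iff ℝ).2 hL.comp.isBounded)

theorem gauge_tt (hL : Body L) {y : ℝ} (hy : -1 ≤ y) (ζ : Eu κ) :
    gauge L (tt L y ζ) = ((1 + y) / 2) ^ (1 / (Fintype.card κ : ℝ)) * (if ζ = 0 then 0 else 1) := by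
  unfold tt
  have h0 : 0 ≤ (1 + y) / 2 := by linarith
  rw [gauge_smul_of_nonneg (Real.rpow_nonneg h0 _),
    gauge_smul_of_nonneg (inv_nonneg.2 (gauge_nonneg _)), smul_eq_mul, smul_eq_mul]
  split_ifs with h
  · subst h
    simp
  · rw [inv_mul_cancel₀ (fun h1 => h ((hL.gauge_eq_zero ζ).1 h1))]

theorem gauge_tt_pow [Nonempty κ] (hL : Body L) {y : ℝ} (hy : -1 ≤ y) (ζ : Eu κ) :
    gauge L (tt L y ζ) ^ Fintype.card κ = (1 + y) / 2 * (if ζ = 0 then 0 else 1) := by
  have hd : Fintype.card κ ≠ 0 := Fintype.card_ne_zero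
  have h0 : 0 ≤ (1 + y) / 2 := by linarith
  rw [gauge_tt hL hy, mul_pow, ← Real.rpow_natCast, ← Real.rpow_mul h0, one_div,
    inv_mul_cancel₀ (by exact_mod_cast hd), Real.rpow_one]
  split_ifs
  · rw [zero_pow hd]
  · rw [one_pow]

theorem mem_KK_Rel (adj : Fin n → Fin n → Prop) (y : Fin n → ℝ) :
    y ∈ KK (Rel adj) ↔ (∀ v, -1 ≤ y v ∧ y v ≤ 1) ∧ ∀ v w, adj v w → y v + y w ≤ 0 := by
  unfold KK Rel sv
  simp only [mem_ofPred_eq]
  refine and_congr Iff.rfl ⟨fun h v w hvw => ?_, fun h a b hab => ?_⟩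
  · have := h (v, true) (w, false) ⟨rfl, rfl, hvw⟩
    simp only [if_true, Bool.false_eq_true, if_false] at this
    linarith
  · obtain ⟨h1, h2, h3⟩ := hab
    rw [h1, h2]
    have := h _ _ h3
    simp only [if_true, Bool.false_eq_true, if_false]
    linarith

theorem isClosed_KK {P : Type} (R : P × Bool → P × Bool → Prop) : IsClosed (KK R) := by
  have h1 : ∀ a : P × Bool, Continuous fun y : P → ℝ => sv y a := by
    intro a
    unfold sv
    split_ifs
    · fun_prop
    · fun_prop
  have h2 : KK R = (⋂ v, {y : P → ℝ | -1 ≤ y v ∧ y v ≤ 1}) ∩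
      ⋂ a, ⋂ b, ⋂ _ : R a b, {y : P → ℝ | sv y a ≤ sv y b} := by
    ext y
    simp [KK]
  rw [h2]
  refine IsClosed.inter (isClosed_iInter fun v => ?_)
    (isClosed_iInter fun a => isClosed_iInter fun b => isClosed_iInter fun _ =>
      isClosed_le (h1 a) (h1 b))
  exact (isClosed_le continuous_const (continuous_apply v)).inter
    (isClosed_le (continuous_apply v) continuous_const)

theorem isCompact_KK {P : Type} [Fintype P] (R : P × Bool → P × Bool → Prop) :
    IsCompact (KK R) := by
  refine (isCompact_univ_pi fun _ : P => isCompact_Icc (a := (-1 : ℝ)) (b := 1)).of_isClosed_subset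
    (isClosed_KK R) ?_
  intro y hy v _
  exact hy.1 v

theorem Tt_mem [Nonempty κ] (hL : Body L) {adj : Fin n → Fin n → Prop} {y : Fin n → ℝ}
    (hy : y ∈ KK (Rel adj)) (ζ : Fin n → Eu κ) : Tt L y ζ ∈ EP adj L := by
  rw [mem_KK_Rel] at hy
  have h1 : ∀ v, gauge L (Tt L y ζ v) ^ Fintype.card κ ≤ (1 + y v) / 2 := by
    intro v
    unfold Tt
    rw [gauge_tt_pow hL (hy.1 v).1]
    have := (hy.1 v).1
    split_ifs
    · linarith
    · linarith
  refine ⟨fun v => ?_, fun v w hvw => ?_⟩
  · have h2 : gauge L (Tt L y ζ v) ^ Fintype.card κ ≤ 1 := (h1 v).trans (by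
      have := (hy.1 v).2
      linarith)
    exact (pow_le_one_iff_of_nonneg (gauge_nonneg _) Fintype.card_ne_zero).1 h2
  · have := hy.2 v w hvw
    have h2 := h1 v
    have h3 := h1 w
    linarith

theorem measurable_tt (hL : Body L) : Measurable fun p : ℝ × Eu κ => tt L p.1 p.2 := by
  unfold tt
  exact (((measurable_const.add measurable_fst).div_const 2).pow_const _).smul
    (((hL.gauge_cont.measurable.comp measurable_snd).inv).smul measurable_snd)

theorem measurable_Tt (hL : Body L) :
    Measurable fun p : (Fin n → ℝ) × (Fin n → Eu κ) => Tt L p.1 p.2 := by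
  rw [measurable_pi_iff]
  intro v
  have h1 : Measurable fun p : (Fin n → ℝ) × (Fin n → Eu κ) => (p.1 v, p.2 v) :=
    ((measurable_pi_apply v).comp measurable_fst).prodMk
      ((measurable_pi_apply v).comp measurable_snd)
  exact (measurable_tt hL).comp h1

/-- the uniform probability measure -/
noncomputable def uni {α : Type} [MeasureSpace α] (K : Set α) : Measure α :=
  (volume K)⁻¹ • (volume : Measure α).restrict K

theorem uni_prob {α : Type} [MeasureSpace α] {K : Set α} (h0 : 0 < volume K) (h1 : volume K < ⊤) :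
    IsProbabilityMeasure (uni K) := ⟨by
  unfold uni
  rw [Measure.smul_apply, Measure.restrict_apply_univ, smul_eq_mul,
    ENNReal.inv_mul_cancel h0.ne' h1.ne]⟩

theorem uni_int {α : Type} [MeasureSpace α] (K : Set α) (f : α → ℝ) :
    ∫ x, f x ∂(uni K) = (∫ x in K, f x) / (volume K).toReal := by
  unfold uni
  rw [integral_smul_measure, ENNReal.toReal_inv, smul_eq_mul, inv_mul_eq_div]

theorem uni_lint {α : Type} [MeasureSpace α] (K : Set α) (f : α → ℝ≥0∞) :
    ∫⁻ x, f x ∂(uni K) = (volume K)⁻¹ * ∫⁻ x in K, f x := by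
  unfold uni
  rw [lintegral_smul_measure, smul_eq_mul]

theorem pi_uni (hL : Body L) :
    Measure.pi (fun _ : Fin n => uni L) =
      ((volume L)⁻¹) ^ n • (volume : Measure (Fin n → Eu κ)).restrict (Set.pi univ fun _ => L) := by
  have : IsProbabilityMeasure (uni L) := uni_prob hL.vol_pos hL.vol_lt
  refine Measure.pi_eq fun s hs => ?_
  have hm : MeasurableSet L := hL.comp.isClosed.measurableSet
  rw [Measure.smul_apply, Measure.restrict_apply (MeasurableSet.univ_pi hs), ← Set.pi_inter_distrib,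
    volume_pi_pi, smul_eq_mul]
  unfold uni
  simp_rw [Measure.smul_apply, Measure.restrict_apply (hs _), smul_eq_mul]
  rw [Finset.prod_mul_distrib, Finset.prod_const, Finset.card_univ, Fintype.card_fin]

end

end Run7.h434.EP
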