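import Pool.Agent.Run7.h434.EP.MPR

/-!
# Edge powers: the Poincaré inequality (piece CORE)
-/

set_option autoImplicit false

namespace Run7.h434.EP

open MeasureTheory Set Filter Topology
open scoped ENNReal InnerProductSpace Pointwise
open Run7.h523.KF (KK sv Master)
open Pool.Agent.W695.KH (Eu EU EV VV)

/-- truncation -/
noncomputable def cl (C t : ℝ) : ℝ := max (-C) (min C t)

theorem cl_abs {C : ℝ} (hC : 0 ≤ C) (t : ℝ) : |cl C t| ≤ C := by
  unfold cl
  rw [abs_le]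
  exact ⟨le_max_left _ _, max_le (by linarith) (min_le_left _ _)⟩

theorem cl_eq {C t : ℝ} (h : |t| ≤ C) : cl C t = t := by
  unfold cl
  rw [abs_le] at h
  rw [min_eq_right h.2, max_eq_right h.1]

theorem cl_lip (C a b : ℝ) : (cl C a - cl C b) ^ 2 ≤ (a - b) ^ 2 := by
  unfold cl
  refine sq_le_sq.2 ?_
  rw [max_comm (-C) (min C a), max_comm (-C) (min C b)]
  refine (abs_max_sub_max_le_abs _ _ _).trans ((abs_min_sub_min_le_max C a C b).trans ?_)
  rw [sub_self, abs_zero]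
  exact max_le (abs_nonneg _) le_rfl

theorem cl_cont (C : ℝ) : Continuous (cl C) := by
  unfold cl
  fun_prop

section

variable {n : ℕ} {κ : Type} [Fintype κ] {L : Set (Eu κ)}
  {adj : Fin n → Fin n → Prop}

theorem Av_update (f : (Fin n → Eu κ) → ℝ) (v : Fin n) (z : Fin n → Eu κ) (e : Eu κ) :
    Av adj L f v (Function.update z v e) = Av adj L f v z := by
  unfold Av Fb
  simp only [Function.update_idem]

theorem Tt_update (y : Fin n → ℝ) (ζ : Fin n → Eu κ) (v : Fin n) (e : Eu κ) :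
    Tt L y (Function.update ζ v e) = Function.update (Tt L y ζ) v (tt L (y v) e) := by
  funext w
  by_cases h : w = v
  · subst h
    simp [Tt]
  · simp [Tt, Function.update_of_ne h]

theorem cont_y (ζ : Fin n → Eu κ) : Continuous fun y : Fin n → ℝ => Tt L y ζ := by
  refine continuous_pi fun v => ?_
  unfold Tt tt
  have h1 : Continuous fun y : Fin n → ℝ => (1 + y v) / 2 :=
    (continuous_const.add (continuous_apply v)).div_const 2
  have h2 : Continuous fun y : Fin n → ℝ => ((1 + y v) / 2) ^ (1 / (Fintype.card κ : ℝ)) :=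
    (Real.continuous_rpow_const (by positivity)).comp h1
  exact h2.smul continuous_const

theorem mem_of_EP (hL : Body L) {z : Fin n → Eu κ} (hz : z ∈ EP adj L) (v : Fin n) : z v ∈ L := by
  have h := (gauge_le_one_iff_mem_closure hL.conv hL.nhds).1 (hz.1 v)
  rwa [hL.comp.isClosed.closure_eq] at h

theorem uni_integrable {α : Type} [MeasureSpace α] [TopologicalSpace α] [OpensMeasurableSpace α]
    [IsFiniteMeasureOnCompacts (volume : Measure α)] [T2Space α]
    {K : Set α} (hc : IsCompact K) (h0 : 0 < volume K) {h : α → ℝ} (hh : Continuous h) :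
    Integrable h (uni K) := by
  unfold uni
  exact (hh.continuousOn.integrableOn_compact hc).smul_measure (ENNReal.inv_ne_top.2 h0.ne')

/-- the radial part for one `ζ` -/
theorem rad_one [Nonempty κ] (hR : S_RAD) (hL : Body L) {B : ℝ} (hB : ∀ x ∈ L, ‖x‖ ≤ B)
    (hM : Master (Fin n) (Rel adj) (fun y => (1 - y ^ 2) ^ 2) 1)
    (hK : 0 < volume (KK (Rel adj))) {f : (Fin n → Eu κ) → ℝ} (hf : ContDiff ℝ 1 f)
    (ζ : Fin n → Eu κ) :
    (∫ y, f (Tt L y ζ) ^ 2 ∂(uni (KK (Rel adj)))) - (∫ y, f (Tt L y ζ) ∂(uni (KK (Rel adj)))) ^ 2 ≤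
      4 * B ^ 2 / (Fintype.card κ : ℝ) ^ 2 *
        ∑ v : Fin n, ∫ y, gv f v (Tt L y ζ) ^ 2 ∂(uni (KK (Rel adj))) := by
  have hVr : 0 < (volume (KK (Rel adj))).toReal := ENNReal.toReal_pos hK.ne' (KK_lt _).ne
  obtain ⟨V, hV⟩ : ∃ V, V = (volume (KK (Rel adj))).toReal := ⟨_, rfl⟩
  have h1 := hR n κ (Rel adj) hM f hf (fun v => (gauge L (ζ v))⁻¹ • ζ v)
    (fun y => Tt L y ζ) (fun y v => rfl)
  have hB0 : 0 ≤ B := (norm_nonneg _).trans (hB 0 (interior_subset hL.zero))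
  have h2 : ∀ v : Fin n, ∫ y in KK (Rel adj), (fderiv ℝ f (Tt L y ζ) (Pi.single v (Tt L y ζ v))) ^ 2 ≤
      B ^ 2 * ∫ y in KK (Rel adj), gv f v (Tt L y ζ) ^ 2 := by
    intro v
    rw [← integral_const_mul]
    have c1 : Continuous fun y : Fin n → ℝ => gv f v (Tt L y ζ) :=
      (gv_cont hf v).comp (cont_y ζ)
    have c2 : Continuous fun y : Fin n → ℝ =>
        (fderiv ℝ f (Tt L y ζ) (Pi.single v (Tt L y ζ v))) ^ 2 := by
      have c3 : Continuous fun y : Fin n → ℝ => fderiv ℝ f (Tt L y ζ) :=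
        (hf.continuous_fderiv one_ne_zero).comp (cont_y ζ)
      have c4 : Continuous fun y : Fin n → ℝ => (Pi.single v (Tt L y ζ v) : Fin n → Eu κ) :=
        (continuous_single v).comp ((continuous_apply v).comp (cont_y ζ))
      exact (c3.clm_apply c4).pow 2
    refine setIntegral_mono_on (c2.continuousOn.integrableOn_compact (isCompact_KK _))
      ((c1.pow 2).const_mul _ |>.continuousOn.integrableOn_compact (isCompact_KK _))
      (isClosed_KK _).measurableSet fun y hy => ?_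
    have h3 := gv_le hf v (Tt L y ζ) (Tt L y ζ v)
    have h4 : ‖Tt L y ζ v‖ ≤ B := hB _ (mem_of_EP hL (Tt_mem hL hy ζ) v)
    have h5 : 0 ≤ gv f v (Tt L y ζ) := norm_nonneg _
    have h6 : |fderiv ℝ f (Tt L y ζ) (Pi.single v (Tt L y ζ v))| ≤ B * gv f v (Tt L y ζ) :=
      h3.trans (by rw [mul_comm]; gcongr)
    rw [← sq_abs, ← mul_pow]
    exact pow_le_pow_left₀ (abs_nonneg _) h6 2
  rw [← hV] at h1 hVr
  simp_rw [uni_int]
  rw [← hV]
  have h3 : (∫ y in KK (Rel adj), f (Tt L y ζ) ^ 2) / V -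
      ((∫ y in KK (Rel adj), f (Tt L y ζ)) / V) ^ 2 =
      ((∫ y in KK (Rel adj), f (Tt L y ζ) ^ 2) -
        (∫ y in KK (Rel adj), f (Tt L y ζ)) ^ 2 / V) / V := by
    field_simp
  rw [h3, ← Finset.sum_div, ← mul_div_assoc]
  refine div_le_div_of_nonneg_right (h1.trans ?_) hVr.le
  calc 4 / (Fintype.card κ : ℝ) ^ 2 * ∑ v : Fin n,
        ∫ y in KK (Rel adj), (fderiv ℝ f (Tt L y ζ) (Pi.single v (Tt L y ζ v))) ^ 2
      ≤ 4 / (Fintype.card κ : ℝ) ^ 2 * ∑ v : Fin n,
        (B ^ 2 * ∫ y in KK (Rel adj), gv f v (Tt L y ζ) ^ 2) := by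
        gcongr with v
        exact h2 v
    _ = _ := by
        rw [← Finset.mul_sum]
        ring

/-- CORE -/
theorem t_CORE (hP : S_PLN) (hR : S_RAD) (hD : S_DEC) (hF : S_FIB) (hG : S_GEO) : S_CORE := by
  intro n κ _ _ adj L c B hL hc hpoi hB hM hK f hf
  have hcp : IsCompact (EP adj L) := (hG.1 n κ adj L hL).1
  have hE0 : 0 < volume (EP adj L) := EP_pos hP hL hK
  have hEr : 0 < (volume (EP adj L)).toReal := ENNReal.toReal_pos hE0.ne' hcp.measure_lt_top.ne
  have i1 : IsProbabilityMeasure (uni L) := uni_prob hL.vol_pos hL.vol_lt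
  have i2 : IsProbabilityMeasure (uni (KK (Rel adj))) := uni_prob hK (KK_lt _)
  have i3 : IsProbabilityMeasure (uni (EP adj L)) := uni_prob hE0 hcp.measure_lt_top
  have hms : MeasurableSet (EP adj L) := hcp.isClosed.measurableSet
  obtain ⟨C₀, hC₀⟩ := hcp.exists_bound_of_continuousOn hf.continuous.continuousOn
  obtain ⟨C, hCd⟩ : ∃ C, C = max C₀ 0 := ⟨_, rfl⟩
  have hC : 0 ≤ C := by rw [hCd]; exact le_max_right _ _
  have hfC : ∀ z ∈ EP adj L, |f z| ≤ C := fun z hz => (hC₀ z hz).trans (by rw [hCd]; exact le_max_left _ _)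
  have hTm := measurable_Tt (n := n) hL
  have hfm : Measurable f := hf.continuous.measurable
  have hclm : Measurable (cl C) := (cl_cont C).measurable
  -- the decomposition
  have dec := hD n (Fin n → ℝ) (Eu κ) (uni (KK (Rel adj))) (uni L)
    (fun y ζ => cl C (f (Tt L y ζ))) (fun v y ζ => cl C (Av adj L f v (Tt L y ζ))) C
    (hclm.comp (hfm.comp hTm))
    (fun v => hclm.comp ((hF n κ adj L c hL hc hpoi f hf v).1.comp hTm))
    (fun y ζ => cl_abs hC _) (fun v y ζ => cl_abs hC _)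
    (fun v y ζ e => by
      show cl C (Av adj L f v (Tt L y (Function.update ζ v e))) = cl C (Av adj L f v (Tt L y ζ))
      rw [Tt_update, Av_update])
  -- integrability
  have hcont : ∀ {h : (Fin n → Eu κ) → ℝ}, Continuous h → Integrable h (uni (EP adj L)) :=
    fun hh => uni_integrable hcp hE0 hh
  have hae : ∀ {p : (Fin n → Eu κ) → Prop}, (∀ z ∈ EP adj L, p z) → ∀ᵐ z ∂(uni (EP adj L)), p z := by
    intro p hp
    unfold uni
    exact Measure.ae_smul_measure ((ae_restrict_iff' hms).2 (Eventually.of_forall hp)) _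
  -- left hand side
  have l1 : (∫ ζ, ∫ y, cl C (f (Tt L y ζ)) ^ 2 ∂(uni (KK (Rel adj)))
      ∂(Measure.pi fun _ : Fin n => uni L)) = ∫ z, f z ^ 2 ∂(uni (EP adj L)) := by
    rw [(J1 hP hL hcp hK (h := fun z => cl C (f z) ^ 2)
      (hcont (((cl_cont C).comp hf.continuous).pow 2))).2.1]
    exact integral_congr_ae (hae fun z hz => by
      show cl C (f z) ^ 2 = f z ^ 2
      rw [cl_eq (hfC z hz)])
  have l2 : (∫ ζ, ∫ y, cl C (f (Tt L y ζ)) ∂(uni (KK (Rel adj)))
      ∂(Measure.pi fun _ : Fin n => uni L)) = ∫ z, f z ∂(uni (EP adj L)) := by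
    rw [(J1 hP hL hcp hK (h := fun z => cl C (f z))
      (hcont ((cl_cont C).comp hf.continuous))).2.1]
    exact integral_congr_ae (hae fun z hz => cl_eq (hfC z hz))
  -- radial part
  have hgc : ∀ v, Continuous fun z => gv f v z ^ 2 := fun v => (gv_cont hf v).pow 2
  have hgJ := fun v => J1 hP hL hcp hK (hcont (hgc v))
  have r1 : ∀ ζ : Fin n → Eu κ, (∫ y, cl C (f (Tt L y ζ)) ^ 2 ∂(uni (KK (Rel adj)))) -
      (∫ y, cl C (f (Tt L y ζ)) ∂(uni (KK (Rel adj)))) ^ 2 ≤
      4 * B ^ 2 / (Fintype.card κ : ℝ) ^ 2 *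
        ∑ v : Fin n, ∫ y, gv f v (Tt L y ζ) ^ 2 ∂(uni (KK (Rel adj))) := by
    intro ζ
    have hae' : ∀ᵐ y ∂(uni (KK (Rel adj))), cl C (f (Tt L y ζ)) = f (Tt L y ζ) := by
      unfold uni
      exact Measure.ae_smul_measure ((ae_restrict_iff' (isClosed_KK _).measurableSet).2
        (Eventually.of_forall fun y hy => cl_eq (hfC _ (Tt_mem hL hy ζ)))) _
    have e1 : (∫ y, cl C (f (Tt L y ζ)) ^ 2 ∂(uni (KK (Rel adj)))) =
        ∫ y, f (Tt L y ζ) ^ 2 ∂(uni (KK (Rel adj))) :=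
      integral_congr_ae (hae'.mono fun y hy => by
        show cl C (f (Tt L y ζ)) ^ 2 = f (Tt L y ζ) ^ 2
        rw [hy])
    have e2 : (∫ y, cl C (f (Tt L y ζ)) ∂(uni (KK (Rel adj)))) =
        ∫ y, f (Tt L y ζ) ∂(uni (KK (Rel adj))) := integral_congr_ae hae'
    rw [e1, e2]
    exact rad_one hR hL hB hM hK hf ζ
  have r2 : (∫ ζ, ((∫ y, cl C (f (Tt L y ζ)) ^ 2 ∂(uni (KK (Rel adj)))) -
      (∫ y, cl C (f (Tt L y ζ)) ∂(uni (KK (Rel adj)))) ^ 2) ∂(Measure.pi fun _ : Fin n => uni L)) ≤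
      4 * B ^ 2 / (Fintype.card κ : ℝ) ^ 2 * ∑ v : Fin n, ∫ z, gv f v z ^ 2 ∂(uni (EP adj L)) := by
    have hint : Integrable (fun ζ => 4 * B ^ 2 / (Fintype.card κ : ℝ) ^ 2 *
        ∑ v : Fin n, ∫ y, gv f v (Tt L y ζ) ^ 2 ∂(uni (KK (Rel adj))))
        (Measure.pi fun _ : Fin n => uni L) := by
      refine Integrable.const_mul (integrable_finsetSum _ fun v _ => ?_) _
      exact (hgJ v).1.integral_prod_right
    have e : (∫ ζ, 4 * B ^ 2 / (Fintype.card κ : ℝ) ^ 2 *
        ∑ v : Fin n, ∫ y, gv f v (Tt L y ζ) ^ 2 ∂(uni (KK (Rel adj)))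
        ∂(Measure.pi fun _ : Fin n => uni L)) =
        4 * B ^ 2 / (Fintype.card κ : ℝ) ^ 2 * ∑ v : Fin n, ∫ z, gv f v z ^ 2 ∂(uni (EP adj L)) := by
      rw [integral_const_mul, integral_finsetSum _ fun v _ => (hgJ v).1.integral_prod_right]
      congr 1
      exact Finset.sum_congr rfl fun v _ => (hgJ v).2.1
    rw [← e]
    by_cases hi : Integrable (fun ζ => (∫ y, cl C (f (Tt L y ζ)) ^ 2 ∂(uni (KK (Rel adj)))) -
      (∫ y, cl C (f (Tt L y ζ)) ∂(uni (KK (Rel adj)))) ^ 2) (Measure.pi fun _ : Fin n => uni L)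
    · exact integral_mono hi hint r1
    · rw [integral_undef hi]
      exact integral_nonneg fun ζ => mul_nonneg (by positivity)
        (Finset.sum_nonneg fun v _ => integral_nonneg fun y => sq_nonneg _)
  -- the fibres
  have r3 : ∀ v : Fin n, (∫ y, ∫ ζ, (cl C (f (Tt L y ζ)) - cl C (Av adj L f v (Tt L y ζ))) ^ 2
      ∂(Measure.pi fun _ : Fin n => uni L) ∂(uni (KK (Rel adj)))) ≤
      c * ∫ z, gv f v z ^ 2 ∂(uni (EP adj L)) := by
    intro v
    obtain ⟨hAm, hAv⟩ := hF n κ adj L c hL hc hpoi f hf v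
    have hm : Measurable fun z => (cl C (f z) - cl C (Av adj L f v z)) ^ 2 :=
      ((hclm.comp hfm).sub (hclm.comp hAm)).pow_const 2
    have hi : Integrable (fun z => (cl C (f z) - cl C (Av adj L f v z)) ^ 2) (uni (EP adj L)) := by
      refine Integrable.of_bound hm.aestronglyMeasurable ((2 * C) ^ 2)
        (Eventually.of_forall fun z => ?_)
      have h1 := cl_abs hC (f z)
      have h2 := cl_abs hC (Av adj L f v z)
      rw [Real.norm_eq_abs, abs_of_nonneg (sq_nonneg _)]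
      rw [abs_le] at h1 h2
      exact sq_le_sq' (by linarith) (by linarith)
    rw [(J1 hP hL hcp hK (h := fun z => (cl C (f z) - cl C (Av adj L f v z)) ^ 2) hi).2.2]
    have h3 : ENNReal.ofReal (∫ z, (cl C (f z) - cl C (Av adj L f v z)) ^ 2 ∂(uni (EP adj L))) ≤
        ENNReal.ofReal (c * ∫ z, gv f v z ^ 2 ∂(uni (EP adj L))) := by
      rw [ofReal_integral_eq_lintegral_ofReal hi (Eventually.of_forall fun z => sq_nonneg _),
        ENNReal.ofReal_mul hc, ofReal_integral_eq_lintegral_ofReal (hcont (hgc v))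
          (Eventually.of_forall fun z => sq_nonneg _), uni_lint, uni_lint]
      calc (volume (EP adj L))⁻¹ * ∫⁻ z in EP adj L,
            ENNReal.ofReal ((cl C (f z) - cl C (Av adj L f v z)) ^ 2)
          ≤ (volume (EP adj L))⁻¹ * ∫⁻ z in EP adj L,
            ENNReal.ofReal ((f z - Av adj L f v z) ^ 2) :=
            mul_le_mul' le_rfl (lintegral_mono fun z => ENNReal.ofReal_le_ofReal (cl_lip C _ _))
        _ ≤ (volume (EP adj L))⁻¹ * (ENNReal.ofReal c * ∫⁻ z in EP adj L,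
            ENNReal.ofReal (gv f v z ^ 2)) := by gcongr
        _ = _ := by ring
    exact (ENNReal.ofReal_le_ofReal_iff (mul_nonneg hc (integral_nonneg fun z => sq_nonneg _))).1 h3
  -- assembly
  rw [l1, l2] at dec
  have h5 := dec.trans (add_le_add r2 (Finset.sum_le_sum fun v _ => r3 v))
  rw [← Finset.mul_sum, ← add_mul] at h5
  simp_rw [uni_int] at h5
  obtain ⟨V, hV⟩ : ∃ V, V = (volume (EP adj L)).toReal := ⟨_, rfl⟩
  rw [← hV] at h5 hEr ⊢
  rw [← Finset.sum_div] at h5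
  have h6 : (∫ z in EP adj L, f z ^ 2) / V - ((∫ z in EP adj L, f z) / V) ^ 2 =
      ((∫ z in EP adj L, f z ^ 2) - (∫ z in EP adj L, f z) ^ 2 / V) / V := by
    field_simp
  rw [h6, ← mul_div_assoc] at h5
  have h7 := (div_le_div_iff_of_pos_right hEr).1 h5
  refine h7.trans (le_of_eq ?_)
  ring

end

end Run7.h434.EP
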