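import Pool.Agent.Run7.h434.EP.Fin2

/-!
# Edge powers of centred bodies: Cheeger form
-/

set_option autoImplicit false

namespace Run7.h434.EP

open MeasureTheory Set Filter Topology
open scoped ENNReal InnerProductSpace Pointwise
open Run7.h523.KF (KK sv Master)
open Pool.Agent.W695.KH (Eu EU EV VV PerLe sec per)

section

variable {κ : Type} [Fintype κ]

/-- the barycentre is `0` -/
def Cen (L : Set (Eu κ)) : Prop := ∀ θ : Eu κ, EV L (fun x => ⟪θ, x⟫_ℝ) = 0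

/-- Poincaré form of KLS with variances -/
def KLSV (k : ℝ) (L : Set (Eu κ)) : Prop :=
  ∀ s : ℝ, (∀ θ : Eu κ, VV L (fun x => ⟪θ, x⟫_ℝ) ≤ s * ‖θ‖ ^ 2) → Poi L (k * s)

theorem Body.cl_int {L : Set (Eu κ)} (hL : Body L) : closure (interior L) = L := by
  rw [hL.conv.closure_interior_eq_closure_of_nonempty_interior ⟨0, hL.zero⟩,
    hL.comp.isClosed.closure_eq]

theorem Body.EV_int {L : Set (Eu κ)} (hL : Body L) (f : Eu κ → ℝ) : EV L f = EV (interior L) f := by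
  have h := EV_closure isOpen_interior hL.conv.interior f
  rwa [hL.cl_int] at h

theorem Cen.var {L : Set (Eu κ)} (h : Cen L) (θ : Eu κ) :
    VV L (fun x => ⟪θ, x⟫_ℝ) = EV L (fun x => ⟪θ, x⟫_ℝ ^ 2) := by
  unfold VV
  rw [h θ]
  ring

theorem cen_main (hD : Run7.h523.KF.S_DISC) : ∃ c : ℝ, 0 < c ∧ ∀ (n : ℕ) (κ : Type) [Fintype κ]
    [Nonempty κ] (adj : Fin n → Fin n → Prop) (L : Set (Eu κ)) (k : ℝ), 1 ≤ n → Body L → Cen L →
    0 ≤ k → KLSV k L → KLSV (1452 * (1 + k)) (ep adj L) ∧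
    ∀ μ : Measure (Eu (Fin n × κ)), μ = (volume (ep adj L))⁻¹ • volume.restrict (ep adj L) →
    ∀ t : ℝ≥0∞, (∀ (u : Eu (Fin n × κ)) (b : ℝ), u ≠ 0 →
      t * min (μ {x | ⟪u, x⟫_ℝ ≤ b}) (1 - μ {x | ⟪u, x⟫_ℝ ≤ b}) ≤
      liminf (fun ε : ℝ => (μ (Metric.thickening ε {x | ⟪u, x⟫_ℝ ≤ b}) -
        μ {x | ⟪u, x⟫_ℝ ≤ b}) / ENNReal.ofReal ε) (𝓝[>] 0)) →
    ∀ S : Set (Eu (Fin n × κ)), MeasurableSet S →
      ENNReal.ofReal (c / Real.sqrt (1 + k)) * t * min (μ S) (1 - μ S) ≤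
        liminf (fun ε : ℝ => (μ (Metric.thickening ε S) - μ S) / ENNReal.ofReal ε) (𝓝[>] 0) := by
  obtain ⟨c, hc, H⟩ := Run7.h999.EP.t_CHE
  refine ⟨c / Real.sqrt 1452, by positivity, ?_⟩
  intro n κ _ _ adj L k hn hL hcen hk hp
  obtain ⟨g0, g1, g2, g3⟩ := geo.1 n κ adj L hL
  obtain ⟨a, ha, hmax⟩ := Pool.Agent.W932.KH.q_max (Ω := interior L) isOpen_interior
    (hL.comp.isBounded.subset interior_subset)
  obtain ⟨s, hs⟩ : ∃ s, s = EV L (fun x => ⟪a, x⟫_ℝ ^ 2) := ⟨_, rfl⟩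
  have hs0 : 0 < s := by
    rw [hs, hL.EV_int]
    exact Pool.Agent.W932.KH.q_pos isOpen_interior (hL.comp.isBounded.subset interior_subset)
      hL.zero a ha
  have hmax' : ∀ θ : Eu κ, EV L (fun x => ⟪θ, x⟫_ℝ ^ 2) ≤ s * ‖θ‖ ^ 2 := by
    intro θ
    rw [hs, hL.EV_int, hL.EV_int]
    exact hmax θ
  obtain ⟨hP, v, hv⟩ := body_main hD hn adj L hL k s hk hs0.le hcen hmax'
    (hp s (fun θ => by rw [hcen.var]; exact hmax' θ))
  have : Nonempty (Fin n × κ) := ⟨(⟨0, hn⟩, Classical.arbitrary κ)⟩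
  have hna := norm_unblk v a ha
  have hvar : 4 / 121 * s ≤ VV (ep adj L) (fun x => ⟪unblk (Pi.single v a), x⟫_ℝ) := by
    obtain ⟨h1, h2⟩ := hv a
    unfold VV
    simp_rw [inner_unblk]
    rw [h1, hs]
    linarith
  refine ⟨?_, ?_⟩
  · intro s' hs' f hf
    have h2 := hs' (unblk (Pi.single v a))
    rw [hna, one_pow, mul_one] at h2
    refine (hP f hf).trans (mul_le_mul_of_nonneg_right ?_
      (div_nonneg (integral_nonneg fun x => sq_nonneg _) ENNReal.toReal_nonneg))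
    nlinarith
  · intro μ hμ t ht S hS
    have h3 := H (Fin n × κ) (ep adj L) g1 g2 ⟨0, g3⟩ ((k + 48) * s) (4 / 121 * s)
      (by positivity) (by positivity) hP (unblk (Pi.single v a)) hna hvar μ hμ t
      (fun b => ht _ b (fun h => by rw [h, norm_zero] at hna; exact zero_ne_one hna)) S hS
    refine le_trans ?_ h3
    refine mul_le_mul' (mul_le_mul' (ENNReal.ofReal_le_ofReal ?_) le_rfl) le_rfl
    have h4 : 1 / (1452 * (1 + k)) ≤ 4 / 121 * s / ((k + 48) * s) := by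
      rw [div_le_div_iff₀ (by positivity) (by positivity)]
      nlinarith
    calc c / Real.sqrt 1452 / Real.sqrt (1 + k) = c * Real.sqrt (1 / (1452 * (1 + k))) := by
          rw [Real.sqrt_div zero_le_one, Real.sqrt_one, Real.sqrt_mul (by norm_num)]
          field_simp
      _ ≤ _ := mul_le_mul_of_nonneg_left (Real.sqrt_le_sqrt h4) hc.le

theorem klsv_dim [Nonempty κ] (L : Set (Eu κ)) (hL : Body L) (hcen : Cen L) :
    KLSV (2 ^ Fintype.card κ * (48 * (Fintype.card κ : ℝ) ^ 2)) L := by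
  intro s hs
  exact poi_dim L hL s hcen (fun θ => by rw [← hcen.var]; exact hs θ)

end

end Run7.h434.EP
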