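import Pool.Agent.Run7.h523.KF.DISC
import Pool.Agent.Run7.h523.KF.INV
import Pool.Agent.Run7.h523.KF.PAT6
import Pool.Agent.Run7.h523.KF.PAT8
import Pool.Agent.Run7.h523.KF.DIH
import Pool.Agent.Run7.h523.KF.HEX
import Pool.Agent.Run7.h523.KF.OCT
import Pool.Agent.Run7.h523.KF.ASM
import Pool.Agent.Run7.h523.KF.CONN
import Pool.Agent.Run7.h847.KF.COM
import Pool.Agent.Run7.h593.KF.DUA

/-!
# The discrete inequality of the project KF, assembled
-/

set_option autoImplicit false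

namespace Run7.h434.EP

open Run7.h523.KF in
theorem disc : S_DISC :=
  t_DISC t_INV (Run7.h847.KF.t_COM t_INV) (t_HEX t_INV t_PAT6 t_DIH6) (t_OCT t_INV t_PAT8 t_DIH8)
    t_ASM (t_CON t_INV) Run7.h593.KF.t_DUA

end Run7.h434.EP
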