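import Pool.Agent.Run7.h434.EP.Iface
import Pool.Agent.W695.KH.Final
import Pool.Agent.R972.OP.All2

/-!
# Edge powers: hyperplane sections (piece HYP)
-/

set_option autoImplicit false

namespace Run7.h434.EP

open MeasureTheory Set Filter Topology
open scoped ENNReal InnerProductSpace Pointwise
open Pool.Agent.W695.KH (Eu EV VV PerLe sec Sm)

theorem EV_closure {κ : Type} [Fintype κ] {Ω : Set (Eu κ)} (ho : IsOpen Ω) (hc : Convex ℝ Ω)
    (f : Eu κ → ℝ) : EV (closure Ω) f = EV Ω f := by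
  have h := Pool.Agent.W932.KH.EV_scale ho hc 1 one_pos f
  simpa using h

theorem fderiv_scale {κ : Type} [Fintype κ] (f : Eu κ → ℝ) (hf : ContDiff ℝ 1 f) (r : ℝ)
    (hr : 0 < r) (x : Eu κ) :
    ‖fderiv ℝ (fun x => f (r • x)) x‖ = r * ‖fderiv ℝ f (r • x)‖ := by
  have h1 : HasFDerivAt (fun x : Eu κ => r • x) (r • ContinuousLinearMap.id ℝ (Eu κ)) x :=
    (hasFDerivAt_id x).const_smul r
  have h2 : HasFDerivAt f (fderiv ℝ f (r • x)) (r • x) :=
    (hf.differentiable one_ne_zero (r • x)).hasFDerivAt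
  have h3 := (h2.comp x h1).fderiv
  have h4 : (fun x => f (r • x)) = f ∘ fun x : Eu κ => r • x := rfl
  rw [h4, h3, ContinuousLinearMap.comp_smul, ContinuousLinearMap.comp_id, norm_smul,
    Real.norm_eq_abs, abs_of_pos hr]

/-- the Poincaré inequality of a dilate -/
theorem poi_scale {κ : Type} [Fintype κ] {Ω : Set (Eu κ)} (ho : IsOpen Ω) (hc : Convex ℝ Ω)
    {Cp : ℝ} (hCp : 0 < Cp) (h : Poi (closure Ω) Cp) (r : ℝ) (hr : 0 < r) (hr1 : r < 1) :
    Poi (r • closure Ω) Cp := by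
  intro f hf
  have hg : ContDiff ℝ 1 fun x : Eu κ => f (r • x) := hf.comp (contDiff_const_smul r)
  have h1 := h _ hg
  have h2 : VV (r • closure Ω) f = VV (closure Ω) fun x => f (r • x) := by
    unfold VV
    rw [Pool.Agent.W932.KH.EV_scale ho hc r hr, Pool.Agent.W932.KH.EV_scale ho hc r hr,
      EV_closure ho hc, EV_closure ho hc]
  have h3 : EV (closure Ω) (fun x => ‖fderiv ℝ (fun x => f (r • x)) x‖ ^ 2) =
      r ^ 2 * EV (r • closure Ω) fun x => ‖fderiv ℝ f x‖ ^ 2 := by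
    rw [Pool.Agent.W932.KH.EV_scale ho hc r hr, EV_closure ho hc]
    simp_rw [fderiv_scale f hf r hr, mul_pow]
    unfold EV
    rw [integral_const_mul, mul_div_assoc]
  have h4 : 0 ≤ EV (r • closure Ω) fun x => ‖fderiv ℝ f x‖ ^ 2 :=
    div_nonneg (integral_nonneg fun x => by positivity) ENNReal.toReal_nonneg
  rw [h2]
  refine h1.trans ?_
  rw [h3]
  have h5 : r ^ 2 ≤ 1 := by nlinarith
  nlinarith [mul_nonneg hCp.le h4]

/-- HYP -/
theorem t_HYP : S_HYP := by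
  obtain ⟨C, hC, hsec⟩ := Pool.Agent.W695.KH.sec_bound
  refine ⟨3 * Real.sqrt (80 * C), by positivity, ?_⟩
  intro κ _ _ Ω ho hco hbd h0 hsym Cp σ hCp hσ hpoi a ha hvar E hE hEΩ hvol P hP
  obtain ⟨B, hB⟩ : ∃ B : ℝ, B = Real.sqrt (80 * Cp) := ⟨_, rfl⟩
  have hB0 : 0 < B := by rw [hB]; positivity
  have hv0 : 0 < volume Ω := ho.measure_pos volume ⟨0, h0⟩
  have hvt : volume Ω ≠ ⊤ := hbd.measure_lt_top.ne
  have hvr : 0 < (volume Ω).toReal := ENNReal.toReal_pos hv0.ne' hvt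
  -- the perimeter
  have h1 : (volume Ω).toReal ≤ 3 * B * P := by
    refine Pool.Agent.W695.KH.perim κ Ω ho hco hbd h0 E hE hEΩ hvol P hP B hB0 ?_
    intro r hr hr1 f L M hf hb hV
    have hD : IsCompact (r • closure Ω) := (hbd.isCompact_closure).smul r
    have hDc : Convex ℝ (r • closure Ω) := hco.closure.smul r
    have hDv : 0 < volume (r • closure Ω) := by
      rw [Measure.addHaar_smul]
      refine ENNReal.mul_pos ?_ ?_
      · rw [abs_of_pos (pow_pos hr _)]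
        exact (ENNReal.ofReal_pos.2 (pow_pos hr _)).ne'
      · exact (hv0.trans_le (measure_mono subset_closure)).ne'
    have h2 := Pool.Agent.R972.OP.bodl_all κ (r • closure Ω) hD hDc hDv Cp hCp
      (poi_scale ho hco hCp hpoi r hr hr1) f L M hf hb
    obtain ⟨g, hg⟩ : ∃ g : ℝ, g = EV (r • closure Ω) fun x => ‖fderiv ℝ f x‖ := ⟨_, rfl⟩
    rw [← hg] at h2 ⊢
    obtain ⟨V, hVd⟩ : ∃ V : ℝ, V = VV (r • closure Ω) f := ⟨_, rfl⟩
    rw [← hVd] at h2 hV ⊢
    have hg0 : 0 ≤ g := by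
      rw [hg]
      exact div_nonneg (integral_nonneg fun x => norm_nonneg _) ENNReal.toReal_nonneg
    have h3 : V ^ 2 ≤ 16 * Cp * g ^ 2 := by
      have h4 : V ^ 2 ≤ (4 * Real.sqrt Cp * g) ^ 2 := pow_le_pow_left₀ (by linarith) h2 2
      rw [mul_pow, mul_pow, Real.sq_sqrt hCp.le] at h4
      linarith
    rw [mul_pow, hB, Real.sq_sqrt (by positivity)]
    nlinarith
  -- the section
  obtain ⟨h2, h3, -⟩ := hsec κ Ω ho hco hbd h0 hsym a ha
  obtain ⟨S, hS⟩ : ∃ S : ℝ, S = (sec Ω a).toReal := ⟨_, rfl⟩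
  rw [← hS] at h3
  have hS0 : 0 ≤ S := by rw [hS]; exact ENNReal.toReal_nonneg
  have h4 : S ^ 2 * σ ≤ C * (3 * B * P) ^ 2 := by
    have h5 : S ^ 2 * σ ≤ S ^ 2 * EV Ω (fun x => ⟪a, x⟫_ℝ ^ 2) := by gcongr
    have h6 : (volume Ω).toReal ^ 2 ≤ (3 * B * P) ^ 2 := pow_le_pow_left₀ hvr.le h1 2
    nlinarith
  have hP0 : 0 ≤ P := by
    have h5 : 0 < 3 * B * P := hvr.trans_le h1
    by_contra h6
    push Not at h6
    nlinarith [mul_pos hB0 (neg_pos.2 h6)]
  have h5 : S ≤ 3 * Real.sqrt (80 * C) * Real.sqrt (Cp / σ) * P := by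
    have h6 : S ^ 2 ≤ (3 * Real.sqrt (80 * C) * Real.sqrt (Cp / σ) * P) ^ 2 := by
      have e : (3 * Real.sqrt (80 * C) * Real.sqrt (Cp / σ) * P) ^ 2 =
          C * (3 * B * P) ^ 2 / σ := by
        rw [mul_pow, mul_pow, mul_pow, mul_pow, mul_pow, Real.sq_sqrt (by positivity),
          Real.sq_sqrt (by positivity), hB, Real.sq_sqrt (by positivity)]
        field_simp
      rw [e, le_div_iff₀ hσ]
      exact h4
    exact le_of_sq_le_sq h6 (by positivity)
  calc sec Ω a = ENNReal.ofReal S := by rw [hS, ENNReal.ofReal_toReal h2]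
    _ ≤ _ := ENNReal.ofReal_le_ofReal h5

end Run7.h434.EP
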