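import Pool.Agent.Run7.h434.EP.CORE
import Pool.Agent.Run7.h434.EP.HYP
import Pool.Agent.Run7.h586.EP.POL
import Pool.Agent.Run7.h586.EP.RAD
import Pool.Agent.Run7.h942.EP.PLN
import Pool.Agent.Run7.h942.EP.VAR
import Pool.Agent.Run7.h803.EP.BND
import Pool.Agent.Run7.h803.EP.MEAN
import Pool.Agent.Run7.h117.EP.DEC
import Pool.Agent.Run7.h64.EP.FIB
import Pool.Agent.Run7.h842.EP.TRF
import Pool.Agent.Run7.h842.EP.MID
import Pool.Agent.Run7.h999.EP.CHE
import Pool.Agent.Run7.h13.EP.GEO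
import Pool.Agent.Run7.h523.KF.MST

/-!
# Edge powers: assembly
-/

set_option autoImplicit false

namespace Run7.h434.EP

open MeasureTheory Set Filter Topology
open scoped ENNReal InnerProductSpace Pointwise
open Run7.h523.KF (KK sv Master)
open Pool.Agent.W695.KH (Eu EU EV VV PerLe sec per)

theorem pln : S_PLN := Pool.Agent.Run7.h942.EP.t_PLN Run7.h586.EP.pol

theorem geo : S_GEO := Run7.h13.EP.t_GEO

theorem core : S_CORE := t_CORE pln Run7.h586.EP.rad Run7.h117.EP.t_DEC H64.EPF.t_FIB geo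

theorem trf : S_TRF := Run7.h842.EP.t_TRF

theorem mean_all : S_MEAN := Run7.h803.EP.t_MEAN

theorem var_all : S_VAR := Pool.Agent.Run7.h942.EP.t_VAR pln mean_all trf

/-- the master inequality for the weight `(1 - y²)²` -/
theorem master (hD : Run7.h523.KF.S_DISC) {n : ℕ} (R : Fin n × Bool → Fin n × Bool → Prop)
    (hv : 0 < volume (KK R)) : Master (Fin n) R (fun y => (1 - y ^ 2) ^ 2) 1 := by
  intro F hF
  have h := Run7.h523.KF.master_two hD (Fin n) R hv F hF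
  refine h.trans (le_of_eq ?_)
  congr 1
  refine Finset.sum_congr rfl fun v _ => setIntegral_congr_fun (isClosed_KK R).measurableSet ?_
  intro y hy
  have h1 := (hy : y ∈ KK R).1 v
  simp only [Run7.h523.KF.W2]
  rw [max_eq_right (by nlinarith)]

section

variable {n : ℕ} {κ : Type} [Fintype κ]

theorem vol_ep (adj : Fin n → Fin n → Prop) (L : Set (Eu κ)) (hc : IsCompact (EP adj L)) :
    volume (ep adj L) = volume (EP adj L) :=
  (trf n κ).2.2.1.measure_preimage hc.isClosed.measurableSet.nullMeasurableSet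

theorem int_ep (adj : Fin n → Fin n → Prop) (L : Set (Eu κ)) (hc : IsCompact (EP adj L))
    (g : (Fin n → Eu κ) → ℝ) (hg : Continuous g) :
    ∫ z in ep adj L, g (blk z) = ∫ z in EP adj L, g z := by
  have m := (trf n κ).2.2.1.restrict_preimage hc.isClosed.measurableSet
  have h := integral_map m.measurable.aemeasurable (f := g)
    (by rw [m.map_eq]; exact hg.aestronglyMeasurable)
  rw [m.map_eq] at h
  exact h.symm

/-- Poincaré inequality for the edge power in `ℝ^(n × κ)` -/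
theorem poi_ep [Nonempty κ] (adj : Fin n → Fin n → Prop) (L : Set (Eu κ)) (hL : Body L)
    (c B : ℝ) (hc0 : 0 ≤ c) (hpoi : Poi L c) (hB : ∀ x ∈ L, ‖x‖ ≤ B)
    (hM : Master (Fin n) (Rel adj) (fun y => (1 - y ^ 2) ^ 2) 1)
    (hK : 0 < volume (KK (Rel adj))) :
    Poi (ep adj L) (c + 4 * B ^ 2 / (Fintype.card κ : ℝ) ^ 2) := by
  intro F hF
  have hcp : IsCompact (EP adj L) := (geo.1 n κ adj L hL).1
  obtain ⟨hbu, hub, -, hgr⟩ := trf n κ
  obtain ⟨hf, hgrad⟩ := hgr F hF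
  have h1 := core n κ adj L c B hL hc0 hpoi hB hM hK _ hf
  have hE0 : 0 < volume (EP adj L) := EP_pos pln hL hK
  have hEr : 0 < (volume (EP adj L)).toReal := ENNReal.toReal_pos hE0.ne' hcp.measure_lt_top.ne
  have e1 : ∫ z in ep adj L, F z ^ 2 = ∫ z in EP adj L, F (unblk z) ^ 2 := by
    rw [← int_ep adj L hcp (fun z => F (unblk z) ^ 2) (hf.continuous.pow 2)]
    simp_rw [hub]
  have e2 : ∫ z in ep adj L, F z = ∫ z in EP adj L, F (unblk z) := by
    rw [← int_ep adj L hcp (fun z => F (unblk z)) hf.continuous]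
    simp_rw [hub]
  have e3 : ∫ z in ep adj L, ‖fderiv ℝ F z‖ ^ 2 =
      ∑ v : Fin n, ∫ z in EP adj L, gv (fun z => F (unblk z)) v z ^ 2 := by
    simp_rw [hgrad]
    rw [int_ep adj L hcp (fun z => ∑ v : Fin n, gv (fun z => F (unblk z)) v z ^ 2)
      (continuous_finsetSum _ fun v _ => (gv_cont hf v).pow 2)]
    exact integral_finsetSum _ fun v _ =>
      ((gv_cont hf v).pow 2).continuousOn.integrableOn_compact hcp
  unfold VV EV
  rw [e1, e2, e3, vol_ep adj L hcp]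
  obtain ⟨V, hV⟩ : ∃ V, V = (volume (EP adj L)).toReal := ⟨_, rfl⟩
  rw [← hV] at h1 hEr ⊢
  have h6 : (∫ z in EP adj L, F (unblk z) ^ 2) / V - ((∫ z in EP adj L, F (unblk z)) / V) ^ 2 =
      ((∫ z in EP adj L, F (unblk z) ^ 2) - (∫ z in EP adj L, F (unblk z)) ^ 2 / V) / V := by
    field_simp
  rw [h6, ← mul_div_assoc]
  exact div_le_div_of_nonneg_right h1 hEr.le

/-- the two main facts on the edge power of a centred body -/
theorem body_main (hD : Run7.h523.KF.S_DISC) [Nonempty κ] (hn : 1 ≤ n)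
    (adj : Fin n → Fin n → Prop) (L : Set (Eu κ)) (hL : Body L) (k s : ℝ) (hk : 0 ≤ k)
    (hs : 0 ≤ s) (h0 : ∀ θ : Eu κ, EV L (fun x => ⟪θ, x⟫_ℝ) = 0)
    (hcov : ∀ θ : Eu κ, EV L (fun x => ⟪θ, x⟫_ℝ ^ 2) ≤ s * ‖θ‖ ^ 2) (hpoi : Poi L (k * s)) :
    Poi (ep adj L) ((k + 48) * s) ∧
    ∃ v : Fin n, ∀ θ : Eu κ, EV (ep adj L) (fun z => ⟪θ, blk z v⟫_ℝ) = 0 ∧
      4 / 121 * EV L (fun x => ⟪θ, x⟫_ℝ ^ 2) ≤ EV (ep adj L) fun z => ⟪θ, blk z v⟫_ℝ ^ 2 := by
  have hK : 0 < volume (KK (Rel adj)) := lt_of_lt_of_le one_pos (mean_all n adj hn).1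
  refine ⟨?_, var_all n κ adj L hn hL h0⟩
  have hd : (0 : ℝ) < Fintype.card κ := by exact_mod_cast Fintype.card_pos
  have hB := Run7.h803.EP.t_BND κ L s hL h0 hcov
  have h1 := poi_ep adj L hL (k * s) (Real.sqrt (12 * (Fintype.card κ : ℝ) ^ 2 * s))
    (mul_nonneg hk hs) hpoi (fun x hx => Real.le_sqrt_of_sq_le (hB x hx))
    (master hD (Rel adj) hK) hK
  rw [Real.sq_sqrt (by positivity)] at h1
  have e : k * s + 4 * (12 * (Fintype.card κ : ℝ) ^ 2 * s) / (Fintype.card κ : ℝ) ^ 2 =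
      (k + 48) * s := by
    field_simp
    ring
  rwa [e] at h1

theorem inner_unblk (v : Fin n) (a : Eu κ) (z : Eu (Fin n × κ)) :
    ⟪unblk (Pi.single v a), z⟫_ℝ = ⟪a, blk z v⟫_ℝ := by
  unfold unblk blk
  rw [PiLp.inner_apply, PiLp.inner_apply, Fintype.sum_prod_type,
    Finset.sum_eq_single v]
  · simp
  · intro w _ hw
    simp [Pi.single_eq_of_ne hw]
  · simp

theorem norm_unblk (v : Fin n) (a : Eu κ) (ha : ‖a‖ = 1) :
    ‖unblk (Pi.single v a : Fin n → Eu κ)‖ = 1 := by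
  have h1 : ‖unblk (Pi.single v a : Fin n → Eu κ)‖ ^ 2 = 1 := by
    rw [← real_inner_self_eq_norm_sq, inner_unblk, (trf n κ).1, Pi.single_eq_same,
      real_inner_self_eq_norm_sq, ha, one_pow]
  have h2 := norm_nonneg (unblk (Pi.single v a : Fin n → Eu κ))
  nlinarith

theorem centred {L : Set (Eu κ)} (hm : MeasurableSet L) (hsym : ∀ x ∈ L, -x ∈ L) (θ : Eu κ) :
    EV L (fun x => ⟪θ, x⟫_ℝ) = 0 := by
  unfold EV
  have h1 : ∫ x in L, ⟪θ, x⟫_ℝ = -∫ x in L, ⟪θ, x⟫_ℝ := by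
    rw [← integral_indicator hm, ← integral_neg]
    refine (integral_neg_eq_self (L.indicator fun x => ⟪θ, x⟫_ℝ) volume).symm.trans
      (integral_congr_ae (Eventually.of_forall fun x => ?_))
    show L.indicator (fun x => ⟪θ, x⟫_ℝ) (-x) = -L.indicator (fun x => ⟪θ, x⟫_ℝ) x
    by_cases hx : x ∈ L
    · rw [indicator_of_mem hx, indicator_of_mem (hsym x hx), inner_neg_right]
    · have hx' : -x ∉ L := fun h => hx (by simpa using hsym _ h)
      rw [indicator_of_notMem hx, indicator_of_notMem hx', neg_zero]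
  have h2 : ∫ x in L, ⟪θ, x⟫_ℝ = 0 := by linarith
  rw [h2, zero_div]

end

/-- hyperplane form -/
theorem hyp_main (hD : Run7.h523.KF.S_DISC) : ∃ C : ℝ, 0 < C ∧ ∀ (n : ℕ) (κ : Type) [Fintype κ]
    [Nonempty κ] (adj : Fin n → Fin n → Prop) (L : Set (Eu κ)) (k : ℝ), 1 ≤ n → IsOpen L →
    Convex ℝ L → Bornology.IsBounded L → (0 : Eu κ) ∈ L → (∀ x ∈ L, -x ∈ L) → 0 ≤ k →
    (∀ s : ℝ, (∀ θ : Eu κ, EV L (fun x => ⟪θ, x⟫_ℝ ^ 2) ≤ s * ‖θ‖ ^ 2) → Poi (closure L) (k * s)) →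
    ∃ a : Eu (Fin n × κ), a ≠ 0 ∧ ∀ E : Set (Eu (Fin n × κ)), MeasurableSet E → E ⊆ epo adj L →
      volume E = volume (epo adj L) / 2 →
      sec (epo adj L) a ≤ ENNReal.ofReal (C * Real.sqrt (1 + k)) * per E (epo adj L) := by
  obtain ⟨C, hC, H⟩ := t_HYP
  refine ⟨C * Real.sqrt 1452, by positivity, ?_⟩
  intro n κ _ _ adj L k hn ho hco hbd h0 hsym hk hpoi
  obtain ⟨hLb, g1, g2, g3, g4, g5, g6⟩ := geo.2 n κ adj L ho hco hbd h0
  obtain ⟨a, ha, hmax⟩ := Pool.Agent.W932.KH.q_max ho hbd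
  obtain ⟨s, hs⟩ : ∃ s, s = EV L (fun x => ⟪a, x⟫_ℝ ^ 2) := ⟨_, rfl⟩
  rw [← hs] at hmax
  have hs0 : 0 < s := by rw [hs]; exact Pool.Agent.W932.KH.q_pos ho hbd h0 a ha
  have hcl : ∀ f : Eu κ → ℝ, EV (closure L) f = EV L f := EV_closure ho hco
  obtain ⟨hP, v, hv⟩ := body_main hD hn adj (closure L) hLb k s hk hs0.le
    (fun θ => by rw [hcl]; exact centred ho.measurableSet hsym θ)
    (fun θ => by rw [hcl]; exact hmax θ) (hpoi s hmax)
  have : Nonempty (Fin n × κ) := ⟨(⟨0, hn⟩, Classical.arbitrary κ)⟩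
  have hna := norm_unblk v a ha
  refine ⟨unblk (Pi.single v a), fun h => by rw [h, norm_zero] at hna; exact zero_ne_one hna, ?_⟩
  intro E hE hEs hvol
  have hσ : 4 / 121 * s ≤ EV (epo adj L) (fun x => ⟪unblk (Pi.single v a), x⟫_ℝ ^ 2) := by
    have h1 := (hv a).2
    rw [hcl, ← hs, ← g5, EV_closure g1 g2] at h1
    simp_rw [inner_unblk]
    exact h1
  have hPc : Poi (closure (epo adj L)) ((k + 48) * s) := by rw [g5]; exact hP
  by_cases hp : per E (epo adj L) = ⊤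
  · rw [hp, ENNReal.mul_top]
    · exact le_top
    · rw [Ne, ENNReal.ofReal_eq_zero, not_le]
      positivity
  · refine (H (Fin n × κ) (epo adj L) g1 g2 g3 g4 (g6 hsym) ((k + 48) * s) (4 / 121 * s)
      (by positivity) (by positivity) hPc (unblk (Pi.single v a)) hna hσ E hE hEs hvol _
      (Pool.Agent.W695.KH.perLe_toReal E (epo adj L) hp)).trans ?_
    rw [ENNReal.ofReal_mul (by positivity), ENNReal.ofReal_toReal hp]
    refine mul_le_mul' (ENNReal.ofReal_le_ofReal ?_) le_rfl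
    rw [mul_assoc, ← Real.sqrt_mul (by norm_num)]
    refine mul_le_mul_of_nonneg_left (Real.sqrt_le_sqrt ?_) hC.le
    rw [div_le_iff₀ (by positivity)]
    nlinarith

/-- every body in dimension `d` satisfies the hypothesis with a constant which depends on `d` -/
theorem poi_dim {κ : Type} [Fintype κ] [Nonempty κ] (L : Set (Eu κ)) (hL : Body L) (s : ℝ)
    (h0 : ∀ θ : Eu κ, EV L (fun x => ⟪θ, x⟫_ℝ) = 0)
    (hcov : ∀ θ : Eu κ, EV L (fun x => ⟪θ, x⟫_ℝ ^ 2) ≤ s * ‖θ‖ ^ 2) :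
    Poi L (2 ^ Fintype.card κ * (48 * (Fintype.card κ : ℝ) ^ 2) * s) := by
  have hB := Run7.h803.EP.t_BND κ L s hL h0 hcov
  have hs : 0 ≤ 12 * (Fintype.card κ : ℝ) ^ 2 * s :=
    (sq_nonneg _).trans (hB 0 (interior_subset hL.zero))
  obtain ⟨B, hBd⟩ : ∃ B, B = Real.sqrt (12 * (Fintype.card κ : ℝ) ^ 2 * s) := ⟨_, rfl⟩
  have hB2 : B ^ 2 = 12 * (Fintype.card κ : ℝ) ^ 2 * s := by rw [hBd, Real.sq_sqrt hs]
  have hB1 : ∀ x ∈ L, ‖x‖ ≤ B := fun x hx => by rw [hBd]; exact Real.le_sqrt_of_sq_le (hB x hx)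
  have hB0 : 0 ≤ B := by rw [hBd]; exact Real.sqrt_nonneg _
  have h1 := Run7.h842.EP.t_MID κ L (2 * B) hL (by positivity) (fun x hx y hy =>
    (norm_sub_le x y).trans (by linarith [hB1 x hx, hB1 y hy]))
  have e : (2 : ℝ) ^ Fintype.card κ * (2 * B) ^ 2 =
      2 ^ Fintype.card κ * (48 * (Fintype.card κ : ℝ) ^ 2) * s := by
    rw [mul_pow, hB2]
    ring
  rwa [e] at h1

end Run7.h434.EP
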