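import Pool.Agent.Run7.h434.EP.Fin
import Pool.Agent.Run7.h13.EP.CUB

/-!
# Edge powers: final forms
-/

set_option autoImplicit false

namespace Run7.h434.EP

open MeasureTheory Set Filter Topology
open scoped ENNReal InnerProductSpace Pointwise
open Run7.h523.KF (KK sv Master)
open Pool.Agent.W695.KH (Eu EU EV VV PerLe sec per)

/-- Poincaré form of the inequality of Kannan, Lovász and Simonovits -/
def KLSP {κ : Type} [Fintype κ] (k : ℝ) (L : Set (Eu κ)) : Prop :=
  ∀ s : ℝ, (∀ θ : Eu κ, EV L (fun x => ⟪θ, x⟫_ℝ ^ 2) ≤ s * ‖θ‖ ^ 2) → Poi L (k * s)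

theorem klsp_closure {κ : Type} [Fintype κ] {k : ℝ} {L : Set (Eu κ)} (ho : IsOpen L)
    (hc : Convex ℝ L) : KLSP k (closure L) ↔ KLSP k L := by
  unfold KLSP Poi VV
  simp_rw [EV_closure ho hc]

/-- the Poincaré form is inherited by edge powers -/
theorem klsp_main (hD : Run7.h523.KF.S_DISC) {n : ℕ} {κ : Type} [Fintype κ] [Nonempty κ]
    (adj : Fin n → Fin n → Prop) (L : Set (Eu κ)) (k : ℝ) (hn : 1 ≤ n) (ho : IsOpen L)
    (hco : Convex ℝ L) (hbd : Bornology.IsBounded L) (h0 : (0 : Eu κ) ∈ L)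
    (hsym : ∀ x ∈ L, -x ∈ L) (hk : 0 ≤ k) (hpoi : KLSP k L) :
    KLSP (1452 * (1 + k)) (epo adj L) := by
  obtain ⟨hLb, g1, g2, g3, g4, g5, g6⟩ := geo.2 n κ adj L ho hco hbd h0
  obtain ⟨a, ha, hmax⟩ := Pool.Agent.W932.KH.q_max ho hbd
  obtain ⟨s, hs⟩ : ∃ s, s = EV L (fun x => ⟪a, x⟫_ℝ ^ 2) := ⟨_, rfl⟩
  rw [← hs] at hmax
  have hs0 : 0 < s := by rw [hs]; exact Pool.Agent.W932.KH.q_pos ho hbd h0 a ha
  have hcl : ∀ f : Eu κ → ℝ, EV (closure L) f = EV L f := EV_closure ho hco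
  obtain ⟨hP, v, hv⟩ := body_main hD hn adj (closure L) hLb k s hk hs0.le
    (fun θ => by rw [hcl]; exact centred ho.measurableSet hsym θ)
    (fun θ => by rw [hcl]; exact hmax θ) ((klsp_closure ho hco).2 hpoi s (fun θ => by
      rw [hcl]; exact hmax θ))
  intro s' hs' f hf
  have h1 := (hv a).2
  rw [hcl, ← hs, ← g5, EV_closure g1 g2] at h1
  have h2 := hs' (unblk (Pi.single v a))
  simp_rw [inner_unblk] at h2
  rw [norm_unblk v a ha, one_pow, mul_one] at h2
  have h3 := hP f hf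
  rw [← g5] at h3
  unfold VV at h3 ⊢
  rw [EV_closure g1 g2, EV_closure g1 g2, EV_closure g1 g2] at h3
  refine h3.trans (mul_le_mul_of_nonneg_right ?_
    (div_nonneg (integral_nonneg fun x => sq_nonneg _) ENNReal.toReal_nonneg))
  nlinarith

/-- every symmetric body in dimension `d` -/
theorem klsp_dim {κ : Type} [Fintype κ] [Nonempty κ] (L : Set (Eu κ)) (ho : IsOpen L)
    (hco : Convex ℝ L) (hbd : Bornology.IsBounded L) (h0 : (0 : Eu κ) ∈ L)
    (hsym : ∀ x ∈ L, -x ∈ L) :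
    KLSP (2 ^ Fintype.card κ * (48 * (Fintype.card κ : ℝ) ^ 2)) L := by
  have hLb := (geo.2 1 κ (fun _ _ => False) L ho hco hbd h0).1
  have hcl : ∀ f : Eu κ → ℝ, EV (closure L) f = EV L f := EV_closure ho hco
  rw [← klsp_closure ho hco]
  intro s hs
  exact poi_dim (closure L) hLb s (fun θ => by rw [hcl]; exact centred ho.measurableSet hsym θ) hs

/-! ### the cube -/

/-- the open cube -/
def cube (κ : Type) [Fintype κ] : Set (Eu κ) := {x | ∀ i, |x i| < 1}

theorem cube_open (κ : Type) [Fintype κ] : IsOpen (cube κ) := by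
  unfold cube
  simp only [ofPred_forall]
  exact isOpen_iInter_of_finite fun i => isOpen_lt (by fun_prop) continuous_const

theorem cube_convex (κ : Type) [Fintype κ] : Convex ℝ (cube κ) := by
  intro x hx y hy s t hs ht hst i
  have h1 := hx i
  have h2 := hy i
  simp only [PiLp.add_apply, PiLp.smul_apply]
  rw [abs_lt] at h1 h2 ⊢
  exact (convex_Ioo (-1 : ℝ) 1) ⟨h1.1, h1.2⟩ ⟨h2.1, h2.2⟩ hs ht hst

theorem cube_closure (κ : Type) [Fintype κ] : closure (cube κ) = {x : Eu κ | ∀ i, |x i| ≤ 1} := by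
  refine Subset.antisymm (closure_minimal (fun x hx i => (hx i).le) ?_) ?_
  · simp only [ofPred_forall]
    exact isClosed_iInter fun i => isClosed_le (by fun_prop) continuous_const
  · intro x hx
    have h1 : Tendsto (fun n : ℕ => (1 - 1 / ((n : ℝ) + 1)) • x) atTop (𝓝 x) := by
      have h2 : Tendsto (fun n : ℕ => 1 - 1 / ((n : ℝ) + 1)) atTop (𝓝 (1 - 0)) :=
        tendsto_const_nhds.sub tendsto_one_div_add_atTop_nhds_zero_nat
      have h3 := h2.smul_const x
      simpa using h3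
    refine mem_closure_of_tendsto h1 (Eventually.of_forall fun n i => ?_)
    have hn : (0 : ℝ) < (n : ℝ) + 1 := by positivity
    have h4 : 0 < 1 / ((n : ℝ) + 1) := by positivity
    have h5 : 1 / ((n : ℝ) + 1) ≤ 1 := by
      rw [div_le_one hn]
      linarith [(Nat.cast_nonneg n : (0 : ℝ) ≤ n)]
    simp only [PiLp.smul_apply, smul_eq_mul]
    rw [abs_mul, abs_of_nonneg (by linarith)]
    have h6 := hx i
    nlinarith [abs_nonneg (x i)]

theorem pi_uniI (κ : Type) [Fintype κ] :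
    Measure.pi (fun _ : κ => uni (Icc (-1 : ℝ) 1)) = uni (Set.pi univ fun _ : κ => Icc (-1 : ℝ) 1) := by
  have : IsProbabilityMeasure (uni (Icc (-1 : ℝ) 1)) :=
    uni_prob (by rw [Real.volume_Icc]; norm_num) (by rw [Real.volume_Icc]; norm_num)
  refine Measure.pi_eq fun s hs => ?_
  unfold uni
  rw [Measure.smul_apply, Measure.restrict_apply (MeasurableSet.univ_pi hs),
    ← Set.pi_inter_distrib, volume_pi_pi, smul_eq_mul, volume_pi_pi]
  simp_rw [Measure.smul_apply, Measure.restrict_apply (hs _), smul_eq_mul]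
  rw [Finset.prod_mul_distrib, Finset.prod_const, Finset.prod_const, ENNReal.inv_pow]

theorem int_line : ∫ t, t ^ 2 ∂(uni (Icc (-1 : ℝ) 1)) = 1 / 3 := by
  rw [uni_int, integral_Icc_eq_integral_Ioc, ← intervalIntegral.integral_of_le (by norm_num),
    integral_pow, Real.volume_Icc]
  norm_num

theorem cube_moment (κ : Type) [Fintype κ] (i : κ) :
    EV (closure (cube κ)) (fun x => x i ^ 2) = 1 / 3 := by
  obtain ⟨Q, hQ⟩ : ∃ Q : Set (κ → ℝ), Q = Set.pi univ fun _ : κ => Icc (-1 : ℝ) 1 := ⟨_, rfl⟩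
  have hpre : (MeasurableEquiv.toLp 2 (κ → ℝ)) ⁻¹' (closure (cube κ)) = Q := by
    rw [cube_closure, hQ]
    ext y
    refine ⟨fun h j _ => abs_le.1 (h j), fun h j => abs_le.2 (h j (mem_univ j))⟩
  have h1 := (PiLp.volume_preserving_toLp κ).setIntegral_preimage_emb
    (MeasurableEquiv.toLp 2 (κ → ℝ)).measurableEmbedding (fun x => x i ^ 2) (closure (cube κ))
  have h2 := (PiLp.volume_preserving_toLp κ).measure_preimage_emb
    (MeasurableEquiv.toLp 2 (κ → ℝ)).measurableEmbedding (closure (cube κ))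
  have h3 : ∫ x in closure (cube κ), x i ^ 2 = ∫ y in Q, y i ^ 2 := by
    rw [← h1, ← hpre]
    rfl
  have h4 : volume (closure (cube κ)) = volume Q := by
    rw [← h2, ← hpre]
    rfl
  have : IsProbabilityMeasure (uni (Icc (-1 : ℝ) 1)) :=
    uni_prob (by rw [Real.volume_Icc]; norm_num) (by rw [Real.volume_Icc]; norm_num)
  have m := measurePreserving_eval (fun _ : κ => uni (Icc (-1 : ℝ) 1)) i
  have h5 := integral_map (μ := Measure.pi fun _ : κ => uni (Icc (-1 : ℝ) 1))
    m.measurable.aemeasurable (f := fun t : ℝ => t ^ 2)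
    (by fun_prop : Continuous fun t : ℝ => t ^ 2).aestronglyMeasurable
  rw [m.map_eq, int_line, pi_uniI, ← hQ, uni_int] at h5
  unfold EV
  rw [h3, h4]
  exact h5.symm

theorem klsp_cube (hD : Run7.h523.KF.S_DISC) (κ : Type) [Fintype κ] [Nonempty κ] :
    KLSP 2 (cube κ) := by
  classical
  rw [← klsp_closure (cube_open κ) (cube_convex κ)]
  intro s hs
  have hi : Nonempty κ := inferInstance
  obtain ⟨i⟩ := hi
  have h1 := hs (EuclideanSpace.single i 1)
  have e : (fun x : Eu κ => ⟪EuclideanSpace.single i (1 : ℝ), x⟫_ℝ ^ 2) = fun x => x i ^ 2 := by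
    funext x
    rw [EuclideanSpace.inner_single_left]
    simp
  rw [e, cube_moment, PiLp.norm_single, norm_one, one_pow, mul_one] at h1
  have hv : 0 < volume (KK (fun _ _ : κ × Bool => False)) := by
    have h2 : KK (fun _ _ : κ × Bool => False) = Set.pi univ fun _ : κ => Icc (-1 : ℝ) 1 := by
      ext y
      exact ⟨fun h j _ => h.1 j, fun h => ⟨fun j => h j (mem_univ j), fun a b hab => hab.elim⟩⟩
    rw [h2, volume_pi_pi, Finset.prod_const, Real.volume_Icc]
    refine ENNReal.pow_pos ?_ _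
    norm_num
  have h3 := Run7.h13.EP.t_CUB κ (Run7.h523.KF.master_one hD κ _ hv)
  rw [← cube_closure] at h3
  intro f hf
  refine (h3 f hf).trans (mul_le_mul_of_nonneg_right ?_
    (div_nonneg (integral_nonneg fun x => sq_nonneg _) ENNReal.toReal_nonneg))
  rw [div_le_iff₀ (by positivity)]
  have hpi : (3 : ℝ) < Real.pi := Real.pi_gt_three
  nlinarith [mul_pos (by linarith : (0:ℝ) < s) (by nlinarith : (0:ℝ) < Real.pi ^ 2 - 9)]

end Run7.h434.EP
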