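import Pool.Agent.Run7.h434.EP.Fin2
import Pool.Agent.Run7.h434.EP.Disc

/-!
# Edge powers: the final theorem
-/

set_option autoImplicit false

namespace Run7.h434.EP

open MeasureTheory Set Filter Topology
open scoped ENNReal InnerProductSpace Pointwise
open Run7.h523.KF (KK sv Master)
open Pool.Agent.W695.KH (Eu EU EV VV PerLe sec per)

/-- hyperplane bound -/
def HB {κ : Type} [Fintype κ] (K : ℝ) (Ω : Set (Eu κ)) : Prop :=
  ∃ a : Eu κ, a ≠ 0 ∧ ∀ E : Set (Eu κ), MeasurableSet E → E ⊆ Ω → volume E = volume Ω / 2 →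
    sec Ω a ≤ ENNReal.ofReal K * per E Ω

theorem HB.mono {κ : Type} [Fintype κ] {K K' : ℝ} {Ω : Set (Eu κ)} (h : HB K Ω) (hK : K ≤ K') :
    HB K' Ω := by
  obtain ⟨a, ha, h⟩ := h
  exact ⟨a, ha, fun E h1 h2 h3 => (h E h1 h2 h3).trans
    (mul_le_mul' (ENNReal.ofReal_le_ofReal hK) le_rfl)⟩

theorem KLSP.mono {κ : Type} [Fintype κ] {k k' : ℝ} {Ω : Set (Eu κ)} (h : KLSP k Ω) (hk : k ≤ k') :
    KLSP k' Ω := by
  intro s hs f hf
  have hs' : 0 ≤ s ∨ ∀ θ : Eu κ, θ = 0 := by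
    by_contra hcon
    push Not at hcon
    obtain ⟨h1, θ, hθ⟩ := hcon
    have h2 := hs θ
    have h3 : 0 ≤ EV Ω (fun x => ⟪θ, x⟫_ℝ ^ 2) :=
      div_nonneg (integral_nonneg fun x => sq_nonneg _) ENNReal.toReal_nonneg
    have h4 : 0 < ‖θ‖ ^ 2 := by positivity
    nlinarith
  have h5 : 0 ≤ EV Ω (fun x => ‖fderiv ℝ f x‖ ^ 2) :=
    div_nonneg (integral_nonneg fun x => sq_nonneg _) ENNReal.toReal_nonneg
  rcases hs' with h0 | h0
  · exact (h s hs f hf).trans (mul_le_mul_of_nonneg_right (mul_le_mul_of_nonneg_right hk h0) h5)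
  · have h6 : EV Ω (fun x => ‖fderiv ℝ f x‖ ^ 2) = 0 := by
      have h7 : ∀ x, ‖fderiv ℝ f x‖ ^ 2 = 0 := by
        intro x
        have h8 : fderiv ℝ f x = 0 := by
          ext θ
          rw [h0 θ]
          simp
        rw [h8]
        simp
      unfold EV
      simp [h7]
    have h9 := h s hs f hf
    rw [h6, mul_zero] at h9 ⊢
    exact h9

theorem two_pow_bound (d : ℕ) : (d : ℝ) ^ 2 ≤ 2 * 2 ^ d := by
  have h : ∀ d : ℕ, d ^ 2 ≤ 2 * 2 ^ d := by
    intro d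
    rcases Nat.lt_or_ge d 4 with h | h
    · interval_cases d <;> norm_num
    · have h2 : d ^ 2 ≤ 2 ^ d := by
        induction d, h using Nat.le_induction with
        | base => norm_num
        | succ m hm ih =>
          rw [pow_succ 2 m]
          nlinarith
      omega
  exact_mod_cast h d

theorem final : ∃ C : ℝ, 0 < C ∧ ∀ (n : ℕ) (κ : Type) [Fintype κ] [Nonempty κ]
    (adj : Fin n → Fin n → Prop) (L : Set (Eu κ)), 1 ≤ n → IsOpen L →
    Convex ℝ L → Bornology.IsBounded L → (0 : Eu κ) ∈ L → (∀ x ∈ L, -x ∈ L) →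
    (IsOpen (epo adj L) ∧ Convex ℝ (epo adj L) ∧ Bornology.IsBounded (epo adj L) ∧
      (epo adj L).Nonempty ∧ ∀ z ∈ epo adj L, -z ∈ epo adj L) ∧
    (∀ k : ℝ, 0 ≤ k → KLSP k L → KLSP (C * (1 + k)) (epo adj L) ∧
      HB (C * Real.sqrt (1 + k)) (epo adj L)) ∧
    HB (C * 2 ^ Fintype.card κ) (epo adj L) ∧
    (L = {x : Eu κ | ∀ i, |x i| < 1} → HB C (epo adj L)) := by
  obtain ⟨C, hC, H⟩ := hyp_main disc
  refine ⟨1452 + 10 * C, by positivity, ?_⟩
  intro n κ _ _ adj L hn ho hco hbd h0 hsym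
  obtain ⟨hLb, g1, g2, g3, g4, g5, g6⟩ := geo.2 n κ adj L ho hco hbd h0
  have key : ∀ k : ℝ, 0 ≤ k → KLSP k L → HB (C * Real.sqrt (1 + k)) (epo adj L) := by
    intro k hk hp
    exact H n κ adj L k hn ho hco hbd h0 hsym hk (fun s hs => (klsp_closure ho hco).2 hp s
      (fun θ => by rw [EV_closure ho hco]; exact hs θ))
  refine ⟨⟨g1, g2, g3, ⟨0, g4⟩, g6 hsym⟩, fun k hk hp => ⟨?_, ?_⟩, ?_, fun hc => ?_⟩
  · exact (klsp_main disc adj L k hn ho hco hbd h0 hsym hk hp).mono (by nlinarith)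
  · refine (key k hk hp).mono ?_
    have := Real.sqrt_nonneg (1 + k)
    nlinarith
  · obtain ⟨d, hd⟩ : ∃ d, d = Fintype.card κ := ⟨_, rfl⟩
    have h1 := key _ (by positivity) (klsp_dim L ho hco hbd h0 hsym)
    rw [← hd] at h1 ⊢
    refine h1.mono ?_
    have h2 := two_pow_bound d
    have h3 : (1 : ℝ) ≤ 2 ^ d := one_le_pow₀ (by norm_num)
    have h4 : Real.sqrt (1 + 2 ^ d * (48 * (d : ℝ) ^ 2)) ≤ 10 * 2 ^ d := by
      rw [Real.sqrt_le_left (by positivity)]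
      nlinarith [mul_le_mul_of_nonneg_left h2 (by positivity : (0 : ℝ) ≤ 2 ^ d)]
    calc C * Real.sqrt (1 + 2 ^ d * (48 * (d : ℝ) ^ 2)) ≤ C * (10 * 2 ^ d) :=
          mul_le_mul_of_nonneg_left h4 hC.le
      _ ≤ (1452 + 10 * C) * 2 ^ d := by nlinarith
  · subst hc
    refine (key 2 (by norm_num) (klsp_cube disc κ)).mono ?_
    have h1 : Real.sqrt (1 + 2) ≤ 10 := by
      rw [Real.sqrt_le_left (by norm_num)]
      norm_num
    nlinarith

end Run7.h434.EP
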