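import Pool.Agent.Run7.h523.KF.Iface
import Pool.Agent.W695.KH.Defs

/-!
# KLS for edge powers of convex bodies (helper434): interface

`L ⊂ ℝ^κ` a convex body with `0` in its interior, gauge `‖·‖`, `d` the dimension, `adj` any relation on `Fin n`.
The edge power `K = {z ∈ (ℝ^κ)^n : ‖z_v‖ ≤ 1, ‖z_v‖^d + ‖z_w‖^d ≤ 1 for adj v w}` is a convex body; for `d = 1`,
`L = [-1, 1]` it is the unconditional body `|z_v| ≤ 1`, `|z_v| + |z_w| ≤ 1` of the edges. Theorem: the Poincare constant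
of `K` is at most an absolute constant times the one of `L`, and KLS for `L` gives KLS for `K`, for all
graphs, all `n`, `d`.

Proof. `x_v = ‖z_v‖^d` is uniform on the fractional stable set polytope; with `y = 2x - 1` this is `KK (Rel adj)` of
`Run7.h523.KF`. The radial part of the variance is bounded by `Master` with the weight `(1 - y²)²`, the rest by
the Poincare inequality of the fibres, dilates of `L`.

Every piece is a closed statement `S_XXX`; its complete proof is in its doc string.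
-/

set_option autoImplicit false

namespace Run7.h434.EP

open MeasureTheory Set Filter Topology
open scoped ENNReal InnerProductSpace Pointwise
open Run7.h523.KF (KK sv Master)
open Pool.Agent.W695.KH (Eu EV VV PerLe sec)

section defs

variable {n : ℕ} {κ : Type} [Fintype κ]

/-- a compact convex set with `0` in its interior -/
structure Body (L : Set (Eu κ)) : Prop where
  comp : IsCompact L
  conv : Convex ℝ L
  zero : (0 : Eu κ) ∈ interior L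

/-- Poincaré inequality with the constant `c` on `L` -/
def Poi (L : Set (Eu κ)) (c : ℝ) : Prop :=
  ∀ f : Eu κ → ℝ, ContDiff ℝ 1 f → VV L f ≤ c * EV L fun x => ‖fderiv ℝ f x‖ ^ 2

/-- the inequalities `y_v + y_w ≤ 0` for `adj v w` -/
def Rel (adj : Fin n → Fin n → Prop) : Fin n × Bool → Fin n × Bool → Prop :=
  fun a b => a.2 = true ∧ b.2 = false ∧ adj a.1 b.1

/-- the edge power, in `(ℝ^κ)^n` -/
def EP (adj : Fin n → Fin n → Prop) (L : Set (Eu κ)) : Set (Fin n → Eu κ) :=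
  {z | (∀ v, gauge L (z v) ≤ 1) ∧ ∀ v w, adj v w →
    gauge L (z v) ^ Fintype.card κ + gauge L (z w) ^ Fintype.card κ ≤ 1}

/-- polar coordinates: `x^(1/d) ζ / ‖ζ‖`, `x = (1 + y)/2` -/
noncomputable def tt (L : Set (Eu κ)) (y : ℝ) (ζ : Eu κ) : Eu κ :=
  ((1 + y) / 2) ^ (1 / (Fintype.card κ : ℝ)) • (gauge L ζ)⁻¹ • ζ

/-- polar coordinates in every block -/
noncomputable def Tt (L : Set (Eu κ)) (y : Fin n → ℝ) (ζ : Fin n → Eu κ) : Fin n → Eu κ :=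
  fun v => tt L (y v) (ζ v)

/-- norm of the gradient in the block `v` -/
noncomputable def gv (f : (Fin n → Eu κ) → ℝ) (v : Fin n) (z : Fin n → Eu κ) : ℝ :=
  ‖fderiv ℝ (fun u : Eu κ => f (Function.update z v u)) (z v)‖

/-- the fibre of the edge power through `z`, in the block `v` -/
def Fb (adj : Fin n → Fin n → Prop) (L : Set (Eu κ)) (v : Fin n) (z : Fin n → Eu κ) : Set (Eu κ) :=
  {u | Function.update z v u ∈ EP adj L}

/-- the mean over the fibre -/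
noncomputable def Av (adj : Fin n → Fin n → Prop) (L : Set (Eu κ)) (f : (Fin n → Eu κ) → ℝ)
    (v : Fin n) (z : Fin n → Eu κ) : ℝ :=
  (∫ u in Fb adj L v z, f (Function.update z v u)) / (volume (Fb adj L v z)).toReal

/-- the blocks of a vector of `ℝ^(n × κ)` -/
noncomputable def blk (z : Eu (Fin n × κ)) : Fin n → Eu κ := fun v => WithLp.toLp 2 fun i => z (v, i)

/-- the vector of `ℝ^(n × κ)` with given blocks -/
noncomputable def unblk (z : Fin n → Eu κ) : Eu (Fin n × κ) := WithLp.toLp 2 fun p => z p.1 p.2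

/-- the edge power, in `ℝ^(n × κ)` -/
def ep (adj : Fin n → Fin n → Prop) (L : Set (Eu κ)) : Set (Eu (Fin n × κ)) :=
  {z | blk z ∈ EP adj L}

/-- the open edge power, in `ℝ^(n × κ)` -/
def epo (adj : Fin n → Fin n → Prop) (L : Set (Eu κ)) : Set (Eu (Fin n × κ)) :=
  {z | (∀ v, gauge L (blk z v) < 1) ∧ ∀ v w, adj v w →
    gauge L (blk z v) ^ Fintype.card κ + gauge L (blk z w) ^ Fintype.card κ < 1}

end defs

/-! ## Polar coordinates -/

/-- **POL.** Polar coordinates for the gauge of `L`. Proof. Use the polar coordinates of Mathlib for the Euclidean norm,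
`MeasureTheory.Measure.measurePreserving_homeomorphUnitSphereProd` (`volume` restricted to `{0}ᶜ` = `toSphere × volumeIoiPow (d - 1)`): for
measurable `H ≥ 0`, `∫⁻ H = ∫⁻_σ ∫⁻_{r>0} r^(d-1) H(r σ)`. With `R(σ) = 1 / gauge L σ` (`0 < R`, as `L` is bounded) `∫⁻_L h = ∫⁻_σ ∫⁻_{0<r≤R(σ)} r^(d-1) h(r σ)`, and the substitution
`r = R x^(1/d)`, `x = (1+y)/2` gives `2 ∫⁻_L h = ∫⁻_σ (R(σ)^d / d) ∫⁻_{y∈[-1,1]} h(x^(1/d) R(σ) σ)`, (`r^(d-1) dr = (R^d/d) dx`). The inner integral `J(σ) = ∫⁻_y h(tt L y σ)` depends only on the direction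
(`tt L y (r σ) = tt L y σ`, `r > 0`), so `∫⁻_L J(ζ) dζ = ∫⁻_σ ∫⁻_{0<r≤R(σ)} r^(d-1) J(σ) = ∫⁻_σ (R(σ)^d/d) J(σ)`. (Alternative: for a set `A` and the maps `ζ ↦ s ζ` use scaling only: both sides are measures in `h`; test on sets
`{gauge L z ≤ r, z/gauge L z ∈ B}`, a π-system.) `d = card κ ≥ 1`. -/
def S_POL : Prop :=
  ∀ (κ : Type) [Fintype κ] [Nonempty κ] (L : Set (Eu κ)), Body L →
    ∀ h : Eu κ → ℝ≥0∞, Measurable h →
    2 * ∫⁻ z in L, h z = ∫⁻ y in Icc (-1 : ℝ) 1, ∫⁻ ζ in L, h (tt L y ζ)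

/-- **PLN** (given POL). Proof. By POL the map `(y, ζ) ↦ tt L y ζ` is measure preserving from `((1/2) volume.restrict [-1,1]).prod (volume.restrict L)` to
`volume.restrict L`; `measurePreserving_pi` gives the product over `Fin n`; exchange `Fin n → ℝ × Eu κ` and `(Fin n → ℝ) × (Fin n → Eu κ)`
(`MeasurableEquiv.arrowProdEquivProdArrow`, `measurePreserving_arrowProdEquivProdArrow` or similar; or an induction / a π-system of boxes), `Measure.restrict_pi_pi`. For `y ∈ [-1,1]^n` and `ζ` with all `ζ v ≠ 0` (a.e.) `gauge L (tt L (y v) (ζ v)) ^ d = (1 + y v)/2`, so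
`Tt L y ζ ∈ EP adj L` if and only if `y ∈ KK (Rel adj)` (`sv y (v,true) ≤ sv y (w,false)` is `y v ≤ - y w`); multiply `h` by the indicator of `EP adj L` (closed, contained in `L^n`, because `gauge L u ≤ 1` iff `u ∈ L`). -/
def S_PLN : Prop :=
  ∀ (n : ℕ) (κ : Type) [Fintype κ] [Nonempty κ] (adj : Fin n → Fin n → Prop) (L : Set (Eu κ)),
    Body L → ∀ h : (Fin n → Eu κ) → ℝ≥0∞, Measurable h →
    2 ^ n * ∫⁻ z in EP adj L, h z =
      ∫⁻ y in KK (Rel adj), ∫⁻ ζ in Set.pi univ (fun _ : Fin n => L), h (Tt L y ζ)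

/-! ## The radial part -/

/-- **RAD.** Proof. For `0 < ε ≤ 1` let `φ_ε(y) = (x² + ε²)^(1/(2d))`, `x = (1+y)/2`, smooth on `ℝ`, and `F_ε(y) = f((φ_ε(y_v) w_v)_v)`, a `C¹` function to which `Master` applies. `∂_v F_ε(y) = φ_ε'(y_v) Df(z^ε)[w_v]` (the vector `w_v` in the block `v`),
`φ_ε'(y) = (1/(2d)) x (x² + ε²)^(1/(2d) - 1)`, and with `(1-y²)² = (4 x (1-x))²`, `0 ≤ x ≤ 1`: `(1-y²) |φ_ε'(y)| ≤ 4 x (1/(2d)) x (x²+ε²)^(1/(2d)-1) ≤ (2/d) φ_ε(y)`. So `(1 - y_v²)² (∂_v F_ε)² ≤ (4/d²) (Df(z^ε)[z^ε_v])²`. Now `ε → 0`: all integrands are jointly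
continuous in `(ε, y) ∈ [0,1] × KK R` (`KK R` compact, `φ_0(y) = x^(1/d)`; `(x²+ε²)^(1/(2d))` is continuous everywhere), so the integrals converge (`continuous_parametric_integral` or dominated convergence). -/
def S_RAD : Prop :=
  ∀ (n : ℕ) (κ : Type) [Fintype κ] [Nonempty κ] (R : Fin n × Bool → Fin n × Bool → Prop),
    Master (Fin n) R (fun y => (1 - y ^ 2) ^ 2) 1 →
    ∀ f : (Fin n → Eu κ) → ℝ, ContDiff ℝ 1 f → ∀ w : Fin n → Eu κ,
    ∀ z : (Fin n → ℝ) → Fin n → Eu κ,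
    (∀ y v, z y v = ((1 + y v) / 2) ^ (1 / (Fintype.card κ : ℝ)) • w v) →
    (∫ y in KK R, f (z y) ^ 2) - (∫ y in KK R, f (z y)) ^ 2 / (volume (KK R)).toReal ≤
      4 / (Fintype.card κ : ℝ) ^ 2 *
        ∑ v : Fin n, ∫ y in KK R, (fderiv ℝ f (z y) (Pi.single v (z y v))) ^ 2

/-! ## Conditional variances -/

/-- **DEC.** Proof. `Var G = E_ζ Var_y G + Var_ζ (E_y G)`, with `F(ζ) = ∫ G(y, ζ) dν(y)` the last term is `∫ (F - ∫F)²`. Efron-Stein (proved for arbitrary probability spaces and `Fin n` in `Pool.Agent.N940.OT.Es`, `es_gen`, import `Pool.Agent.N940.OT.Es`):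
`Var F ≤ (1/2) ∑_v ∫∫ (F(update ζ v e) - F(ζ))²`; by Cauchy-Schwarz in `y` this is at most `(1/2) ∑_v ∫_y ∫_ζ ∫_e (G(y, update ζ v e) - G(y, ζ))²`, and for fixed `y`, with `A(ζ) = G - H v`: `G(update) - G = A(update ζ v e) - A(ζ)` because `H v` does not depend on `ζ_v`;
`(1/2) E (A(update ζ v e) - A(ζ))² = E A² - E (E[A | ζ_w, w ≠ v])² ≤ E A²` (resampling the coordinate `v` preserves the product measure; the average over `e` of `A(update ζ v e)` is the conditional expectation). -/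
def S_DEC : Prop :=
  ∀ (n : ℕ) (Y E : Type) [MeasurableSpace Y] [MeasurableSpace E] (ν : Measure Y) (ρ : Measure E)
    [IsProbabilityMeasure ν] [IsProbabilityMeasure ρ] (G : Y → (Fin n → E) → ℝ)
    (H : Fin n → Y → (Fin n → E) → ℝ) (C : ℝ), Measurable (Function.uncurry G) →
    (∀ v, Measurable (Function.uncurry (H v))) → (∀ y ζ, |G y ζ| ≤ C) → (∀ v y ζ, |H v y ζ| ≤ C) →
    (∀ v y ζ e, H v y (Function.update ζ v e) = H v y ζ) →
    (∫ ζ, ∫ y, G y ζ ^ 2 ∂ν ∂(Measure.pi fun _ : Fin n => ρ)) -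
        (∫ ζ, ∫ y, G y ζ ∂ν ∂(Measure.pi fun _ : Fin n => ρ)) ^ 2 ≤
      (∫ ζ, ((∫ y, G y ζ ^ 2 ∂ν) - (∫ y, G y ζ ∂ν) ^ 2) ∂(Measure.pi fun _ : Fin n => ρ)) +
      ∑ v, ∫ y, ∫ ζ, (G y ζ - H v y ζ) ^ 2 ∂(Measure.pi fun _ : Fin n => ρ) ∂ν

/-- **FIB.** The fibres. Proof. Measurability: `StronglyMeasurable.integral_prod_right`, `measurable_measure_prodMk_left` (`EP adj L` is closed because the gauge is continuous, `0 ∈ interior L`). The inequality: `MeasureTheory.lintegral_le_of_lmarginal_le` with `s = {v}` (`lmarginal_singleton`): it is enough to show for every `z`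
`∫⁻_{u ∈ Fb} (f(update z v u) - Av)² ≤ c ∫⁻_{u ∈ Fb} ‖∇ (f(update z v ·))(u)‖²`, `Fb = Fb adj L v z` (`Av` and `Fb` do not change when `z` is replaced by `update z v u`). `Fb` is empty or `{u : gauge L u ≤ 1, gauge L u ^ d ≤ ℓ}` for some `ℓ ≥ 0` (the smallest of the numbers
`1 - gauge L (z w)^d`, `adj v w` or `adj w v`, `w ≠ v`, and `1/2` if `adj v v`), so it is `r • L` with `0 ≤ r ≤ 1` (`r = 0`: null set, `card κ ≥ 1`); the Poincare inequality of `r • L` has the constant `r² c ≤ c` (apply `Poi` to `g(x) = f̃(r x)`, change of variables `u = r x`). Everything is bounded on `L`, so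
lintegrals of `ENNReal.ofReal` are integrals. -/
def S_FIB : Prop :=
  ∀ (n : ℕ) (κ : Type) [Fintype κ] [Nonempty κ] (adj : Fin n → Fin n → Prop) (L : Set (Eu κ)) (c : ℝ),
    Body L → 0 ≤ c → Poi L c → ∀ f : (Fin n → Eu κ) → ℝ, ContDiff ℝ 1 f → ∀ v : Fin n,
    Measurable (Av adj L f v) ∧
    ∫⁻ z in EP adj L, ENNReal.ofReal ((f z - Av adj L f v z) ^ 2) ≤
      ENNReal.ofReal c * ∫⁻ z in EP adj L, ENNReal.ofReal (gv f v z ^ 2)

/-- **CORE** (given PLN, RAD, DEC, FIB as hypotheses). Poincare for the edge power. Proof. `K = EP adj L`, compact, `ν`, `ρ` the uniform probability measures on `KK (Rel adj)`, `L`; PLN (with `h = 1`: `2^n |K| = |KK| |L|^n`): `(1/|K|) ∫_K h = ∫_ζ ∫_y h(Tt L y ζ)`.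
Let `C` bound `|f|` on `K`, `cl t = max (-C) (min C t)`; DEC with `G y ζ = cl (f (Tt L y ζ))`, `H v y ζ = cl (Av adj L f v (Tt L y ζ))` (it does not depend on `ζ_v`, since `Av` at `z` does not depend on `z_v`). The last sum in DEC is `∑_v (1/|K|) ∫_K (f - Av)² ≤ c ∑_v (1/|K|) ∫_K gv²` (FIB; `|Av| ≤ C` on `K`). For
fixed `ζ ∈ L^n` RAD with `w_v = (gauge L (ζ v))⁻¹ • ζ v` (then `z y = Tt L y ζ`) bounds the variance in `y` by `(4/d²) ∑_v ∫_y (Df(z)[z_v])²` and `|Df(z)[z_v]| ≤ gv f v z ‖z_v‖ ≤ B gv f v z`. -/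
def S_CORE : Prop :=
  ∀ (n : ℕ) (κ : Type) [Fintype κ] [Nonempty κ] (adj : Fin n → Fin n → Prop) (L : Set (Eu κ))
    (c B : ℝ), Body L → 0 ≤ c → Poi L c → (∀ x ∈ L, ‖x‖ ≤ B) →
    Master (Fin n) (Rel adj) (fun y => (1 - y ^ 2) ^ 2) 1 → 0 < volume (KK (Rel adj)) →
    ∀ f : (Fin n → Eu κ) → ℝ, ContDiff ℝ 1 f →
    (∫ z in EP adj L, f z ^ 2) - (∫ z in EP adj L, f z) ^ 2 / (volume (EP adj L)).toReal ≤
      (c + 4 * B ^ 2 / (Fintype.card κ : ℝ) ^ 2) * ∑ v : Fin n, ∫ z in EP adj L, gv f v z ^ 2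

/-! ## Moments -/

/-- **BND.** The size of a centred body. Proof. Let `p ∈ L`, `t = 1/(d+1)`; `(1-t) L + t p ⊂ L`, a homothetic copy with the volume `(1-t)^d |L|`. With `g(x) = ⟪p, x⟫²`: `∫_L g ≥ ∫_{(1-t)L + tp} g = (1-t)^d ∫_L ((1-t) ⟪p, x⟫ + t ‖p‖²)² ≥ (1-t)^d |L| t² ‖p‖⁴`
(expand the square; the linear term integrates to zero). So `s ‖p‖² ≥ (1-t)^d t² ‖p‖⁴`, and `(1-t)^d = (1 + 1/d)^(-d) ≥ exp(-1) ≥ 1/3`, `t² ≥ 1/(4 d²)`. -/
def S_BND : Prop :=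
  ∀ (κ : Type) [Fintype κ] [Nonempty κ] (L : Set (Eu κ)) (s : ℝ), Body L →
    (∀ θ : Eu κ, EV L (fun x => ⟪θ, x⟫_ℝ) = 0) →
    (∀ θ : Eu κ, EV L (fun x => ⟪θ, x⟫_ℝ ^ 2) ≤ s * ‖θ‖ ^ 2) →
    ∀ p ∈ L, ‖p‖ ^ 2 ≤ 12 * (Fintype.card κ : ℝ) ^ 2 * s

/-- **MEAN.** Proof. `V = vol KK ≥ 1` because `[-1,0]^n ⊂ KK (Rel adj)`. Suppose all `∫_K x_v < m V`, `x_v = (1+y_v)/2`, `m = 2/11 < 1/(2e)`. Then `∫_K exp(-∑ x_v/m) ≥ e^(-n) ∫_K (1 + n - ∑ x_v/m) > e^(-n) V ≥ e^(-n)` (`exp t ≥ 1 + t`, `n ≥ 1`), and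
`∫_K exp(-∑ x_v/m) ≤ ∏_v ∫_{-1}^1 exp(-(1+y)/(2m)) dy ≤ (2m)^n` (`KK ⊂ [-1,1]^n`, product). So `1/e < 2m = 4/11`: `e > 2.75`, contradiction. -/
def S_MEAN : Prop :=
  ∀ (n : ℕ) (adj : Fin n → Fin n → Prop), 1 ≤ n → 1 ≤ volume (KK (Rel adj)) ∧
    ∃ v : Fin n, 2 / 11 * (volume (KK (Rel adj))).toReal ≤ ∫ y in KK (Rel adj), (1 + y v) / 2

/-- **TRF.** `ℝ^(n × κ)` and `(ℝ^κ)^n`. Proof. (1), (2) computation; (3) `EuclideanSpace.volume_preserving_symm_measurableEquiv_toLp` (or the like), `MeasurableEquiv.curry`/`measurePreserving_curry`-type facts, or: `blk` is a linear isomorphism, so it maps `volume` to `c • volume`, and `c = 1` on the unit cubes (or `Measure.pi` characterisation on boxes: `Measure.pi_eq`).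
(4) chain rule, `blk`, `unblk` linear; (5) `‖fderiv F z‖² = ∑_p (∂_p F)²` (dual norm in `EuclideanSpace`), and for fixed `v` the sum over `p = (v, i)` is `‖fderiv (u ↦ f(update (blk z) v u)) (blk z v)‖²`. -/
def S_TRF : Prop :=
  ∀ (n : ℕ) (κ : Type) [Fintype κ], (∀ z : Fin n → Eu κ, blk (unblk z) = z) ∧
    (∀ z : Eu (Fin n × κ), unblk (blk z) = z) ∧
    MeasurePreserving (blk : Eu (Fin n × κ) → Fin n → Eu κ) volume volume ∧
    ∀ F : Eu (Fin n × κ) → ℝ, ContDiff ℝ 1 F →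
      ContDiff ℝ 1 (fun z : Fin n → Eu κ => F (unblk z)) ∧
      ∀ z, ‖fderiv ℝ F z‖ ^ 2 = ∑ v : Fin n, gv (fun z => F (unblk z)) v (blk z) ^ 2

/-- **VAR** (given PLN, MEAN, TRF). Proof. PLN with `h(z) = ofReal (a + ⟪θ, z_v⟫)` resp. `⟪θ, z_v⟫²` (bounded on the body, `a` large): `E_K ⟪θ, z_v⟫^j = E_y [((1+y_v)/2)^(j/d)] · E_ζ [⟪θ, (gauge ζ)⁻¹ ζ⟫^j]` (product, only the block `v` matters) and the same for `n = 1`, `adj = False`, i.e. for `L` itself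
(use POL or PLN with `n = 1`): `E_L ⟪θ, x⟫^j = E_{u∈[0,1]} [u^(j/d)] · E_ζ [⟪θ, (gauge ζ)⁻¹ ζ⟫^j]`. `j = 1`: the left side is `0` and `E u^(1/d) > 0`, so the second factor is `0`. `j = 2`: `E u^(2/d) ≤ 1`, and `E_y x_v^(2/d) ≥ E x_v² ≥ (E x_v)² ≥ 4/121` (`0 ≤ x_v ≤ 1`, `2/d ≤ 2`). -/
def S_VAR : Prop :=
  ∀ (n : ℕ) (κ : Type) [Fintype κ] [Nonempty κ] (adj : Fin n → Fin n → Prop) (L : Set (Eu κ)),
    1 ≤ n → Body L → (∀ θ : Eu κ, EV L (fun x => ⟪θ, x⟫_ℝ) = 0) →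
    ∃ v : Fin n, ∀ θ : Eu κ, EV (ep adj L) (fun z => ⟪θ, blk z v⟫_ℝ) = 0 ∧
      4 / 121 * EV L (fun x => ⟪θ, x⟫_ℝ ^ 2) ≤ EV (ep adj L) fun z => ⟪θ, blk z v⟫_ℝ ^ 2

/-! ## From Poincaré to hyperplane sections and to Cheeger -/

/-- **HYP.** Proof (import `Pool.Agent.W695.KH.Final` and `Pool.Agent.R972.OP.All2`). `D = closure Ω`. (1) `Pool.Agent.R972.OP.bodl_all : S_BODL` gives for the compact convex set `r • D`, which satisfies the Poincare inequality with `r² Cp ≤ Cp` (scaling, change of variables) `VV f ≤ 4 √Cp EV ‖∇f‖` for `Sm f L M`, `|f| ≤ 1/2`. If `VV f > 1/5` then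
`VV f ≤ 5 (VV f)² ≤ 80 Cp (EV ‖∇f‖)²`: the hypothesis of `Pool.Agent.W695.KH.perim` (`S_perim`) with `B = √(80 Cp)`. So `|Ω| ≤ 3 B P`. (2) `Pool.Agent.W695.KH.sec_bound` (`S_sec`): `sec² · EV Ω ⟪a, x⟫² ≤ C |Ω|²`, so `sec ≤ √(C/σ) |Ω| ≤ 3 √(80 C Cp/σ) P`. -/
def S_HYP : Prop :=
  ∃ C : ℝ, 0 < C ∧ ∀ (κ : Type) [Fintype κ] [Nonempty κ] (Ω : Set (Eu κ)), IsOpen Ω → Convex ℝ Ω →
    Bornology.IsBounded Ω → (0 : Eu κ) ∈ Ω → (∀ x ∈ Ω, -x ∈ Ω) → ∀ Cp σ : ℝ, 0 < Cp → 0 < σ →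
    Poi (closure Ω) Cp → ∀ a : Eu κ, ‖a‖ = 1 → σ ≤ EV Ω (fun x => ⟪a, x⟫_ℝ ^ 2) →
    ∀ E : Set (Eu κ), MeasurableSet E → E ⊆ Ω → volume E = volume Ω / 2 →
    ∀ P : ℝ, PerLe Ω E P → sec Ω a ≤ ENNReal.ofReal (C * Real.sqrt (Cp / σ) * P)

/-- **CHE.** Proof: copy `sets` and `half_form` of `Pool.Agent.R972.OP.Fin` with `bodl_all`, `Pool.Agent.W695.KH.mink` and `Pool.Agent.Y211.FF.half` for a general convex body `D`: the isoperimetric inequality `μ S (1 - μ S) ≤ 4 √Cp μ⁺(S)`, and halfspaces orthogonal to `a` force `t² VV D ⟪a, ·⟫ ≤ C`. -/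
def S_CHE : Prop :=
  ∃ c : ℝ, 0 < c ∧ ∀ (κ : Type) [Fintype κ] [Nonempty κ] (D : Set (Eu κ)), IsCompact D →
    Convex ℝ D → (interior D).Nonempty → ∀ Cp σ : ℝ, 0 < Cp → 0 < σ → Poi D Cp →
    ∀ a : Eu κ, ‖a‖ = 1 → σ ≤ VV D (fun x => ⟪a, x⟫_ℝ) →
    ∀ μ : Measure (Eu κ), μ = (volume D)⁻¹ • volume.restrict D → ∀ t : ℝ≥0∞,
    (∀ b : ℝ, t * min (μ {x | ⟪a, x⟫_ℝ ≤ b}) (1 - μ {x | ⟪a, x⟫_ℝ ≤ b}) ≤
      liminf (fun ε : ℝ => (μ (Metric.thickening ε {x | ⟪a, x⟫_ℝ ≤ b}) -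
        μ {x | ⟪a, x⟫_ℝ ≤ b}) / ENNReal.ofReal ε) (𝓝[>] 0)) →
    ∀ S : Set (Eu κ), MeasurableSet S →
      ENNReal.ofReal (c * Real.sqrt (σ / Cp)) * t * min (μ S) (1 - μ S) ≤
        liminf (fun ε : ℝ => (μ (Metric.thickening ε S) - μ S) / ENNReal.ofReal ε) (𝓝[>] 0)

/-! ## Geometry, examples -/

/-- **GEO.** Proof. The gauge is continuous (`0 ∈ interior`, convex: `continuous_gauge`), subadditive, and `gauge L x ≤ 1` iff `x ∈ L` for closed `L`; `u ↦ gauge L u ^ d` is convex (`d ≥ 1`, `ConvexOn.pow` or composition of a monotone convex function with a convex one). `blk` is continuous and linear. (1) intersections of closed / bounded / convex sets;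
`0 ∈ interior` because the strict version is open, contains `0` and is contained in `ep`. (2) `gauge (closure L) = gauge L` (`gauge_closure` or directly); closure of `epo`: for `z ∈ ep adj (closure L)` the points `r z`, `r < 1`, are in `epo adj L`. (3) `gauge L (-x) = gauge L x` for symmetric `L`. -/
def S_GEO : Prop :=
  (∀ (n : ℕ) (κ : Type) [Fintype κ] [Nonempty κ] (adj : Fin n → Fin n → Prop) (L : Set (Eu κ)),
    Body L → IsCompact (EP adj L) ∧ IsCompact (ep adj L) ∧ Convex ℝ (ep adj L) ∧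
      (0 : Eu (Fin n × κ)) ∈ interior (ep adj L)) ∧
  ∀ (n : ℕ) (κ : Type) [Fintype κ] [Nonempty κ] (adj : Fin n → Fin n → Prop) (L : Set (Eu κ)),
    IsOpen L → Convex ℝ L → Bornology.IsBounded L → (0 : Eu κ) ∈ L →
    Body (closure L) ∧ IsOpen (epo adj L) ∧ Convex ℝ (epo adj L) ∧
      Bornology.IsBounded (epo adj L) ∧ (0 : Eu (Fin n × κ)) ∈ epo adj L ∧
      closure (epo adj L) = ep adj (closure L) ∧
      ((∀ x ∈ L, -x ∈ L) → ∀ z ∈ epo adj L, -z ∈ epo adj L)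

/-- **MID.** The Poincare inequality of a convex body with a constant which depends on the dimension and the diameter. Proof. For `x, y ∈ L`: `(f(y) - f(x))² ≤ D² ∫_0^1 ‖∇f((1-t)x + t y)‖² dt`. Integrate over `x, y ∈ L`; the part `t ≤ 1/2` is equal to the part `t ≥ 1/2` by symmetry, and for `t ≥ 1/2` and fixed `x` the substitution
`u = (1-t) x + t y ∈ L` gives `∫_{y∈L} ‖∇f((1-t)x+ty)‖² dy ≤ t^(-d) ∫_L ‖∇f‖² ≤ 2^d ∫_L ‖∇f‖²`. So `∬ (f(y)-f(x))² ≤ 2^d D² |L| ∫_L ‖∇f‖²`, and `VV L f = (1/(2|L|²)) ∬ (f(y)-f(x))²`. -/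
def S_MID : Prop :=
  ∀ (κ : Type) [Fintype κ] [Nonempty κ] (L : Set (Eu κ)) (D : ℝ), Body L → 0 ≤ D →
    (∀ x ∈ L, ∀ y ∈ L, ‖x - y‖ ≤ D) → Poi L (2 ^ Fintype.card κ * D ^ 2)

/-- **CUB.** The cube `[-1, 1]^κ` from `Master` without constraints. Proof. `KK` with the empty relation on `P = κ` is the cube of `κ → ℝ`; transfer to `Eu κ` (`EuclideanSpace.volume_preserving_symm_measurableEquiv_toLp` or similar), `‖fderiv F x‖² = ∑_v (∂_v F)²`. -/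
def S_CUB : Prop :=
  ∀ (κ : Type) [Fintype κ] [DecidableEq κ], Master κ (fun _ _ => False) (fun _ => 1) (Real.pi ^ 2 / 4) →
    Poi {x : Eu κ | ∀ i, |x i| ≤ 1} (4 / Real.pi ^ 2)

end Run7.h434.EP
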