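import Pool.Agent.Run7.h434.EP.Base

/-!
# Edge powers: polar coordinates as a measure preserving map
-/

set_option autoImplicit false

namespace Run7.h434.EP

open MeasureTheory Set Filter Topology
open scoped ENNReal InnerProductSpace Pointwise
open Run7.h523.KF (KK sv Master)
open Pool.Agent.W695.KH (Eu EU EV VV)

section

variable {n : ℕ} {κ : Type} [Fintype κ] {L : Set (Eu κ)}
  {adj : Fin n → Fin n → Prop}

theorem vol_rel [Nonempty κ] (hP : S_PLN) (hL : Body L) (adj : Fin n → Fin n → Prop) :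
    2 ^ n * volume (EP adj L) = volume (KK (Rel adj)) * volume L ^ n := by
  have h := hP n κ adj L hL (fun _ => 1) measurable_const
  rw [setLIntegral_one] at h
  simp_rw [setLIntegral_one] at h
  rw [setLIntegral_const, volume_pi_pi, Finset.prod_const, Finset.card_univ, Fintype.card_fin] at h
  rw [h, mul_comm]

theorem KK_lt (R : Fin n × Bool → Fin n × Bool → Prop) : volume (KK R) < ⊤ :=
  (isCompact_KK R).measure_lt_top

theorem EP_pos [Nonempty κ] (hP : S_PLN) (hL : Body L) (hK : 0 < volume (KK (Rel adj))) :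
    0 < volume (EP adj L) := by
  have h := vol_rel hP hL adj
  by_contra h1
  have h2 : volume (EP adj L) = 0 := le_antisymm (not_lt.1 h1) bot_le
  rw [h2, mul_zero] at h
  exact (ENNReal.mul_pos hK.ne' (pow_ne_zero n hL.vol_pos.ne')).ne h

theorem mpr [Nonempty κ] (hP : S_PLN) (hL : Body L) (hc : IsCompact (EP adj L))
    (hK : 0 < volume (KK (Rel adj))) :
    MeasurePreserving (fun p : (Fin n → ℝ) × (Fin n → Eu κ) => Tt L p.1 p.2)
      ((uni (KK (Rel adj))).prod (Measure.pi fun _ : Fin n => uni L)) (uni (EP adj L)) := by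
  have i1 : IsProbabilityMeasure (uni L) := uni_prob hL.vol_pos hL.vol_lt
  have i2 : IsProbabilityMeasure (uni (KK (Rel adj))) := uni_prob hK (KK_lt _)
  refine ⟨measurable_Tt hL, Measure.ext fun A hA => ?_⟩
  have hm := measurable_Tt (n := n) hL
  rw [Measure.map_apply hm hA, Measure.prod_apply (hm hA)]
  have hLt : ((volume L)⁻¹) ^ n ≠ ⊤ := ENNReal.pow_ne_top (ENNReal.inv_ne_top.2 hL.vol_pos.ne')
  have h1 : ∀ y : Fin n → ℝ, (Measure.pi fun _ : Fin n => uni L)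
      (Prod.mk y ⁻¹' ((fun p : (Fin n → ℝ) × (Fin n → Eu κ) => Tt L p.1 p.2) ⁻¹' A)) =
      ((volume L)⁻¹) ^ n *
        ∫⁻ ζ in Set.pi univ (fun _ : Fin n => L), A.indicator 1 (Tt L y ζ) := by
    intro y
    have hmy : Measurable fun ζ : Fin n → Eu κ => Tt L y ζ := hm.comp measurable_prodMk_left
    rw [pi_uni hL, Measure.smul_apply, smul_eq_mul]
    congr 1
    exact (lintegral_indicator_one (hmy hA)).symm
  simp_rw [h1]
  rw [uni_lint, lintegral_const_mul' _ _ hLt, ← hP n κ adj L hL (A.indicator 1)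
    (measurable_one.indicator hA), lintegral_indicator_one hA]
  unfold uni
  rw [Measure.smul_apply, smul_eq_mul, ← mul_assoc, ← mul_assoc]
  congr 1
  have h2 := vol_rel hP hL adj
  obtain ⟨a, ha⟩ : ∃ a, a = volume (KK (Rel adj)) := ⟨_, rfl⟩
  obtain ⟨b, hb⟩ : ∃ b, b = volume L := ⟨_, rfl⟩
  obtain ⟨k, hk⟩ : ∃ k, k = volume (EP adj L) := ⟨_, rfl⟩
  have ha0 : a ≠ 0 := by rw [ha]; exact hK.ne'
  have hat : a ≠ ⊤ := by rw [ha]; exact (KK_lt _).ne
  have hb0 : b ≠ 0 := by rw [hb]; exact hL.vol_pos.ne'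
  have hbt : b ≠ ⊤ := by rw [hb]; exact hL.vol_lt.ne
  have hk0 : k ≠ 0 := by rw [hk]; exact (EP_pos hP hL hK).ne'
  have hkt : k ≠ ⊤ := by rw [hk]; exact hc.measure_lt_top.ne
  rw [← ha, ← hb, ← hk] at h2
  rw [← ha, ← hb, ← hk]
  have h3 : (2 : ℝ≥0∞) ^ n ≠ 0 := pow_ne_zero n two_ne_zero
  have h4 : (2 : ℝ≥0∞) ^ n ≠ ⊤ := ENNReal.pow_ne_top ENNReal.ofNat_ne_top
  calc a⁻¹ * b⁻¹ ^ n * 2 ^ n = (a * b ^ n)⁻¹ * 2 ^ n := by
        rw [ENNReal.mul_inv (Or.inl ha0) (Or.inl hat), ENNReal.inv_pow]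
    _ = (2 ^ n * k)⁻¹ * 2 ^ n := by rw [h2]
    _ = k⁻¹ * ((2 ^ n)⁻¹ * 2 ^ n) := by
        rw [ENNReal.mul_inv (Or.inl h3) (Or.inl h4)]
        ring
    _ = k⁻¹ := by rw [ENNReal.inv_mul_cancel h3 h4, mul_one]

theorem J1 [Nonempty κ] (hP : S_PLN) (hL : Body L) (hc : IsCompact (EP adj L))
    (hK : 0 < volume (KK (Rel adj))) {h : (Fin n → Eu κ) → ℝ}
    (hi : Integrable h (uni (EP adj L))) :
    Integrable (fun p : (Fin n → ℝ) × (Fin n → Eu κ) => h (Tt L p.1 p.2))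
      ((uni (KK (Rel adj))).prod (Measure.pi fun _ : Fin n => uni L)) ∧
    (∫ ζ, ∫ y, h (Tt L y ζ) ∂(uni (KK (Rel adj))) ∂(Measure.pi fun _ : Fin n => uni L)) =
      ∫ z, h z ∂(uni (EP adj L)) ∧
    (∫ y, ∫ ζ, h (Tt L y ζ) ∂(Measure.pi fun _ : Fin n => uni L) ∂(uni (KK (Rel adj)))) =
      ∫ z, h z ∂(uni (EP adj L)) := by
  have i1 : IsProbabilityMeasure (uni L) := uni_prob hL.vol_pos hL.vol_lt
  have i2 : IsProbabilityMeasure (uni (KK (Rel adj))) := uni_prob hK (KK_lt _)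
  have m := mpr hP hL hc hK
  have hi' : Integrable (fun p : (Fin n → ℝ) × (Fin n → Eu κ) => h (Tt L p.1 p.2))
      ((uni (KK (Rel adj))).prod (Measure.pi fun _ : Fin n => uni L)) :=
    (m.integrable_comp hi.aestronglyMeasurable).2 hi
  have e : (∫ p, h (Tt L p.1 p.2) ∂((uni (KK (Rel adj))).prod (Measure.pi fun _ : Fin n => uni L)))
      = ∫ z, h z ∂(uni (EP adj L)) := by
    rw [← m.map_eq, integral_map m.measurable.aemeasurable]
    rw [m.map_eq]
    exact hi.aestronglyMeasurable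
  refine ⟨hi', ?_, ?_⟩
  · rw [← e, integral_prod_symm _ hi']
  · rw [← e, integral_prod _ hi']

theorem single_eq (v : Fin n) (x : Eu κ) :
    (ContinuousLinearMap.pi (Pi.single (M := fun _ : Fin n => Eu κ →L[ℝ] Eu κ) v
      (ContinuousLinearMap.id ℝ (Eu κ)))) x = Pi.single v x := by
  ext i
  simp only [ContinuousLinearMap.coe_pi']
  by_cases h : i = v
  · subst h
    simp
  · simp [Pi.single_eq_of_ne h]

theorem gv_eq {f : (Fin n → Eu κ) → ℝ} (hf : ContDiff ℝ 1 f) (v : Fin n) (z : Fin n → Eu κ) :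
    gv f v z = ‖(fderiv ℝ f z).comp (ContinuousLinearMap.pi
      (Pi.single (M := fun _ : Fin n => Eu κ →L[ℝ] Eu κ) v (ContinuousLinearMap.id ℝ (Eu κ))))‖ := by
  unfold gv
  have h1 := hasFDerivAt_update (𝕜 := ℝ) z (i := v) (z v)
  have h2 : HasFDerivAt f (fderiv ℝ f z) (Function.update z v (z v)) := by
    rw [Function.update_eq_self]
    exact (hf.differentiable one_ne_zero z).hasFDerivAt
  have h3 := (h2.comp (z v) h1).fderiv
  have h4 : (fun u => f (Function.update z v u)) = f ∘ Function.update z v := rfl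
  rw [h4, h3]

theorem gv_cont {f : (Fin n → Eu κ) → ℝ} (hf : ContDiff ℝ 1 f) (v : Fin n) :
    Continuous (gv f v) := by
  have h : gv f v = fun z => ‖(fderiv ℝ f z).comp (ContinuousLinearMap.pi
      (Pi.single (M := fun _ : Fin n => Eu κ →L[ℝ] Eu κ) v (ContinuousLinearMap.id ℝ (Eu κ))))‖ := by
    funext z
    exact gv_eq hf v z
  rw [h]
  exact ((hf.continuous_fderiv one_ne_zero).clm_comp continuous_const).norm

theorem gv_le {f : (Fin n → Eu κ) → ℝ} (hf : ContDiff ℝ 1 f) (v : Fin n) (z : Fin n → Eu κ)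
    (x : Eu κ) : |fderiv ℝ f z (Pi.single v x)| ≤ gv f v z * ‖x‖ := by
  rw [gv_eq hf, ← single_eq, ← Real.norm_eq_abs]
  exact ContinuousLinearMap.le_opNorm ((fderiv ℝ f z).comp _) x

end

end Run7.h434.EP
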